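import Pool.Agent.RED.NS2

/-!
# Hypotheses on the generating tuples
-/

set_option autoImplicit false

namespace RED

open AFn IAQ

/-- a letter which is not needed can be chosen outside of two given ones -/
def HL1 (n : ℕ) (G : Type*) [Group G] : Prop :=
  ∀ (g : Fin n → G) (a b : Fin n), Gen g Finset.univ → ∃ e, e ≠ a ∧ e ≠ b ∧ Gen g {e}ᶜ

/-- two letters which are not needed are joined through a third letter -/
def HL2 (n : ℕ) (G : Type*) [Group G] : Prop :=
  ∀ (g : Fin n → G) (e e' : Fin n), Gen g {e}ᶜ → Gen g {e'}ᶜ →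
    ∃ e'', Gen g {e, e''}ᶜ ∧ Gen g {e', e''}ᶜ

end RED
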