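import Pool.Agent.RED3.Sec0
import Pool.Agent.RED3.NLDefs

/-!
# The hypotheses `HL1` and `HL2` for groups with linear generation
-/

set_option autoImplicit false

namespace RED

open AFn IAQ

variable {n : ℕ} {G : Type*} [Group G] {k V : Type*} [Field k] [AddCommGroup V]
    [Module k V] [FiniteDimensional k V] {q : G → V}

theorem HL1_of (hq : ∀ (g : Fin n → G) (S : Finset (Fin n)), Gen g S ↔ Sec.Sp k q g S)
    (hn : Module.finrank k V + 3 ≤ n) : HL1 n G := by
  intro g a b hg
  obtain ⟨M, -, hM, hMs⟩ := ((hq g Finset.univ).1 hg).exists_basis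
  have h1 : (insert a (insert b M)).card < (Finset.univ : Finset (Fin n)).card := by
    have h2 := Finset.card_insert_le a (insert b M)
    have h3 := Finset.card_insert_le b M
    rw [Finset.card_univ, Fintype.card_fin]
    omega
  obtain ⟨e, -, he⟩ := Finset.exists_mem_notMem_of_card_lt_card h1
  rw [Finset.mem_insert, Finset.mem_insert, not_or, not_or] at he
  refine ⟨e, he.1, he.2.1, (hq g _).2 (hMs.mono ?_)⟩
  intro x hx
  rw [Finset.mem_compl, Finset.mem_singleton]
  rintro rfl
  exact he.2.2 hx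

/-- one of two letters which are not needed, joined to a third letter -/
theorem HLp_joined {g : Fin n → G} {t : Finset (Fin n)} {e e' c : Fin n}
    (hne : e' ≠ e) (ht : t = {e, e'}ᶜ) (hc : c ∈ t)
    (he : Sec.Sp k q g {e}ᶜ) (hns : ¬ Sec.Sp k q g t)
    (hW : Sec.Spn k q g (t.erase c) = Sec.Spn k q g t) : Sec.Sp k q g {e, c}ᶜ := by
  have h1 : ({e}ᶜ : Finset (Fin n)) = insert e' t := by
    ext x
    rw [ht]
    simp only [Finset.mem_compl, Finset.mem_singleton, Finset.mem_insert, not_or]
    constructor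
    · intro hx
      by_cases h : x = e'
      · exact Or.inl h
      · exact Or.inr ⟨hx, h⟩
    · rintro (h | h)
      · rw [h]; exact hne
      · exact h.1
  rw [h1] at he
  have h2 := Sec.notMem_of he hns
  unfold Sec.Sp at he
  rw [Sec.Spn_insert] at he
  rw [ht, Finset.mem_compl, Finset.mem_insert, Finset.mem_singleton, not_or] at hc
  refine Sec.Sp_of he ?_ (i := e') ?_ h2
  · rw [← hW]
    refine Sec.Spn_mono ?_
    intro x hx
    rw [Finset.mem_erase, ht, Finset.mem_compl, Finset.mem_insert, Finset.mem_singleton,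
      not_or] at hx
    rw [Finset.mem_compl, Finset.mem_insert, Finset.mem_singleton, not_or]
    exact ⟨hx.2.1, hx.1⟩
  · rw [Finset.mem_compl, Finset.mem_insert, Finset.mem_singleton, not_or]
    exact ⟨hne, fun h => hc.2 h.symm⟩

theorem HL2_of (hq : ∀ (g : Fin n → G) (S : Finset (Fin n)), Gen g S ↔ Sec.Sp k q g S)
    (hn : Module.finrank k V + 2 ≤ n) : HL2 n G := by
  intro g e e' he he'
  by_cases hee : e = e'
  · subst hee
    refine ⟨e, ?_, ?_⟩ <;> · rw [Finset.pair_eq_singleton]; exact he
  by_cases hs : Sec.Sp k q g {e, e'}ᶜ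
  · refine ⟨e, ?_, ?_⟩
    · rw [Finset.pair_eq_singleton]; exact he
    · rw [Finset.pair_comm]; exact (hq g _).2 hs
  · have hcard : Module.finrank k (Sec.Spn k q g {e, e'}ᶜ) < ({e, e'}ᶜ : Finset (Fin n)).card := by
      have h1 := Sec.finrank_lt hs
      rw [Finset.card_compl, Fintype.card_fin, Finset.card_pair hee]
      omega
    obtain ⟨c, hc, -, hW⟩ := Sec.la (F := ∅) (Finset.empty_subset _)
      (by rw [Finset.coe_empty]; exact linearIndepOn_empty _ _) hcard
    have h3 := (hq g _).1 he
    have h4 := (hq g _).1 he'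
    refine ⟨c, (hq g _).2 (HLp_joined (Ne.symm hee) rfl hc h3 hs hW), (hq g _).2 ?_⟩
    rw [Finset.pair_comm] at hs hc hW
    exact HLp_joined hee rfl hc h4 hs hW

end RED
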