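import Pool.Agent.RED3.Sec0
import Pool.Agent.RED.Rank2

/-!
# Generation in finite `p`-groups is linear
-/

set_option autoImplicit false

namespace RED

open AFn IAQ

theorem pg_coatom {G : Type*} [Group G] [Finite G] {p : ℕ} [Fact p.Prime] (hG : IsPGroup p G)
    {M : Subgroup G} (hM : IsCoatom M) :
    (∀ x y : G, x * y * x⁻¹ * y⁻¹ ∈ M) ∧ ∀ x : G, x ^ p ∈ M := by
  have hnil : Group.IsNilpotent G := hG.isNilpotent
  have hnc : NormalizerCondition G := Group.normalizerCondition_of_isNilpotent
  have hN : M.Normal := Subgroup.NormalizerCondition.normal_of_coatom M hnc hM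
  have hQ : IsPGroup p (G ⧸ M) := hG.to_quotient M
  have hnt : Nontrivial (G ⧸ M) := by
    rw [QuotientGroup.nontrivial_iff]
    exact hM.1
  obtain ⟨m, hm⟩ := hQ.exists_card_eq
  have hm0 : m ≠ 0 := by
    rintro rfl
    rw [pow_zero] at hm
    exact absurd hm (Finite.one_lt_card).ne'
  have hdvd : p ∣ Nat.card (G ⧸ M) := by rw [hm]; exact dvd_pow_self p hm0
  obtain ⟨y, hy⟩ := exists_prime_orderOf_dvd_card' p hdvd
  have htop : Subgroup.zpowers y = ⊤ := by
    have h1 : M < (Subgroup.zpowers y).comap (QuotientGroup.mk' M) := by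
      refine lt_of_le_of_ne ?_ ?_
      · intro x hx
        rw [Subgroup.mem_comap, QuotientGroup.mk'_apply, (QuotientGroup.eq_one_iff x).2 hx]
        exact one_mem _
      · intro h2
        obtain ⟨z, rfl⟩ := QuotientGroup.mk'_surjective M y
        have h3 : z ∈ M := by
          rw [h2, Subgroup.mem_comap]
          exact Subgroup.mem_zpowers _
        rw [QuotientGroup.mk'_apply, (QuotientGroup.eq_one_iff z).2 h3, orderOf_one] at hy
        exact (Fact.out : p.Prime).one_lt.ne hy
    have h2 := hM.2 _ h1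
    rw [eq_top_iff]
    intro q _
    obtain ⟨z, rfl⟩ := QuotientGroup.mk'_surjective M q
    have h3 : z ∈ (Subgroup.zpowers y).comap (QuotientGroup.mk' M) := by
      rw [h2]; exact Subgroup.mem_top z
    exact h3
  have hmem : ∀ z : G ⧸ M, z ∈ Subgroup.zpowers y := fun z => by
    rw [htop]; exact Subgroup.mem_top z
  constructor
  · intro a b
    rw [← QuotientGroup.eq_one_iff]
    obtain ⟨i, hi⟩ := Subgroup.mem_zpowers_iff.1 (hmem (a : G ⧸ M))
    obtain ⟨j, hj⟩ := Subgroup.mem_zpowers_iff.1 (hmem (b : G ⧸ M))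
    have h4 : ((a * b * a⁻¹ * b⁻¹ : G) : G ⧸ M) =
        (a : G ⧸ M) * (b : G ⧸ M) * (a : G ⧸ M)⁻¹ * (b : G ⧸ M)⁻¹ := rfl
    rw [h4, ← hi, ← hj, ← zpow_add, add_comm, zpow_add]
    group
  · intro a
    rw [← QuotientGroup.eq_one_iff]
    obtain ⟨i, hi⟩ := Subgroup.mem_zpowers_iff.1 (hmem (a : G ⧸ M))
    have h4 : ((a ^ p : G) : G ⧸ M) = (a : G ⧸ M) ^ p := rfl
    rw [h4, ← hi, ← zpow_natCast, ← zpow_mul, mul_comm, zpow_mul, zpow_natCast, ← hy,
      pow_orderOf_eq_one, one_zpow]

theorem lin_of_add {G : Type*} [Group G] {V : Type*} [AddCommGroup V] {p : ℕ}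
    [Fact p.Prime] [Module (ZMod p) V] [FiniteDimensional (ZMod p) V] (f : G → V)
    (hmul : ∀ x y, f (x * y) = f x + f y) (hf : Function.Surjective f)
    (hker : ∀ K : Subgroup G, (∀ x, ∃ k ∈ K, f k = f x) → K = ⊤) {r : ℕ} (hr : RB G r) :
    Module.finrank (ZMod p) V ≤ r ∧
      ∀ (n : ℕ) (g : Fin n → G) (S : Finset (Fin n)), Gen g S ↔ Sec.Sp (ZMod p) f g S := by
  classical
  have h1 : f 1 = 0 := by
    have := hmul 1 1
    rw [mul_one] at this
    exact left_eq_add.1 this
  have hinv : ∀ x, f x⁻¹ = - f x := by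
    intro x
    have := hmul x x⁻¹
    rw [mul_inv_cancel, h1] at this
    exact (neg_eq_of_add_eq_zero_right this.symm).symm
  have hpow : ∀ x (c : ℕ), f (x ^ c) = c • f x := by
    intro x c
    induction c with
    | zero => rw [pow_zero, h1, zero_smul]
    | succ c ih => rw [pow_succ, hmul, ih, succ_nsmul]
  -- the images of a generating set span
  have key1 : ∀ (M : Set G), Subgroup.closure M = ⊤ →
      Submodule.span (ZMod p) (f '' M) = ⊤ := by
    intro M hM
    rw [eq_top_iff]
    intro v _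
    obtain ⟨x, hx⟩ := hf v
    have h2 : ∀ x ∈ Subgroup.closure M, f x ∈ Submodule.span (ZMod p) (f '' M) := by
      intro x hx
      induction hx using Subgroup.closure_induction with
      | mem x hx => exact Submodule.subset_span ⟨x, hx, rfl⟩
      | one => rw [h1]; exact Submodule.zero_mem _
      | mul x y _ _ hx hy => rw [hmul]; exact Submodule.add_mem _ hx hy
      | inv x _ hx => rw [hinv]; exact Submodule.neg_mem _ hx
    have h3 := h2 x (by rw [hM]; exact Subgroup.mem_top x)
    rw [hx] at h3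
    exact h3
  constructor
  · obtain ⟨M, hMc, hM⟩ := hr
    have h2 := key1 _ hM
    have h3 : Set.finrank (ZMod p) ((M.image f : Finset V) : Set V) ≤ (M.image f).card :=
      finrank_span_finset_le_card _
    unfold Set.finrank at h3
    rw [Finset.coe_image, h2, finrank_top] at h3
    exact h3.trans (Finset.card_image_le.trans hMc)
  · intro n g S
    rw [Gen_iff_closure]
    unfold Sec.Sp Sec.Spn
    constructor
    · intro h
      have h2 := key1 _ h
      rw [Set.image_image] at h2
      exact h2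
    · intro h
      refine hker _ ?_
      intro x
      have h2 : ∀ v ∈ Submodule.span (ZMod p) ((fun i => f (g i)) ''
          (S : Set (Fin n))), ∃ k ∈ Subgroup.closure (g '' (S : Set (Fin n))), f k = v := by
        intro v hv
        induction hv using Submodule.span_induction with
        | mem v hv =>
          obtain ⟨i, hi, rfl⟩ := hv
          exact ⟨g i, Subgroup.subset_closure ⟨i, hi, rfl⟩, rfl⟩
        | zero => exact ⟨1, one_mem _, h1⟩
        | add v w _ _ hv hw =>
          obtain ⟨a, ha, rfl⟩ := hv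
          obtain ⟨b, hb, rfl⟩ := hw
          exact ⟨a * b, mul_mem ha hb, hmul a b⟩
        | smul c v _ hv =>
          obtain ⟨a, ha, rfl⟩ := hv
          refine ⟨a ^ c.val, pow_mem ha _, ?_⟩
          rw [hpow, ← Nat.cast_smul_eq_nsmul (ZMod p), ZMod.natCast_zmod_val]
      exact h2 (f x) (by rw [h]; exact Submodule.mem_top)

theorem lin_of_comm.{u, v} {G : Type u} [Group G] {Q : Type v} [CommGroup Q] [Finite Q] {p : ℕ}
    [Fact p.Prime] (f : G → Q) (hmul : ∀ x y, f (x * y) = f x * f y)
    (hf : Function.Surjective f) (hp : ∀ x : Q, x ^ p = 1)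
    (hker : ∀ K : Subgroup G, (∀ x, ∃ k ∈ K, f k = f x) → K = ⊤) {r : ℕ} (hr : RB G r) :
    ∃ (V : Type v) (_ : AddCommGroup V) (_ : Module (ZMod p) V)
      (_ : FiniteDimensional (ZMod p) V) (q : G → V), Module.finrank (ZMod p) V ≤ r ∧
      ∀ (n : ℕ) (g : Fin n → G) (S : Finset (Fin n)), Gen g S ↔ Sec.Sp (ZMod p) q g S := by
  have hp' : ∀ v : Additive Q, p • v = 0 := fun v => hp (Additive.toMul v)
  let md : Module (ZMod p) (Additive Q) := AddCommGroup.zmodModule hp'
  have hfin : Finite (Additive Q) := Finite.of_equiv Q Additive.ofMul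
  have hfd : FiniteDimensional (ZMod p) (Additive Q) := Module.Finite.of_finite
  obtain ⟨f', hf'⟩ : ∃ f' : G → Additive Q, f' = fun x => Additive.ofMul (f x) := ⟨_, rfl⟩
  have h1 : ∀ x y, f' (x * y) = f' x + f' y := by
    intro x y
    rw [hf']
    show Additive.ofMul (f (x * y)) = Additive.ofMul (f x) + Additive.ofMul (f y)
    rw [hmul, ofMul_mul]
  have h2 : Function.Surjective f' := by
    intro v
    obtain ⟨x, hx⟩ := hf (Additive.toMul v)
    exact ⟨x, by rw [hf']; exact hx⟩
  have h3 : ∀ K : Subgroup G, (∀ x, ∃ k ∈ K, f' k = f' x) → K = ⊤ := by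
    intro K hK
    refine hker K fun x => ?_
    obtain ⟨k, hk, h⟩ := hK x
    rw [hf'] at h
    exact ⟨k, hk, h⟩
  have h4 := @lin_of_add G _ (Additive Q) _ p _ md hfd f' h1 h2 h3 r hr
  exact ⟨Additive Q, _, md, hfd, f', h4⟩

theorem pgroup_lin.{u} {G : Type u} [Group G] [Finite G] {p : ℕ} [Fact p.Prime] (hG : IsPGroup p G)
    {r : ℕ} (hr : RB G r) :
    ∃ (V : Type u) (_ : AddCommGroup V) (_ : Module (ZMod p) V)
      (_ : FiniteDimensional (ZMod p) V) (q : G → V), Module.finrank (ZMod p) V ≤ r ∧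
      ∀ (n : ℕ) (g : Fin n → G) (S : Finset (Fin n)), Gen g S ↔ Sec.Sp (ZMod p) q g S := by
  have h1 : ∀ x y : G, x * y * x⁻¹ * y⁻¹ ∈ frattini G := by
    intro x y
    unfold frattini Order.radical
    rw [Subgroup.mem_iInf]
    intro M
    rw [Subgroup.mem_iInf]
    intro hM
    exact (pg_coatom hG hM).1 x y
  have h2 : ∀ x : G, x ^ p ∈ frattini G := by
    intro x
    unfold frattini Order.radical
    rw [Subgroup.mem_iInf]
    intro M
    rw [Subgroup.mem_iInf]
    intro hM
    exact (pg_coatom hG hM).2 x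
  let cg : CommGroup (G ⧸ frattini G) :=
    { (inferInstance : Group (G ⧸ frattini G)) with
      mul_comm := by
        intro a b
        obtain ⟨x, rfl⟩ := QuotientGroup.mk'_surjective _ a
        obtain ⟨y, rfl⟩ := QuotientGroup.mk'_surjective _ b
        have h3 := (QuotientGroup.eq_one_iff _).2 (h1 x y)
        have h4 : (x : G ⧸ frattini G) * y * (x : G ⧸ frattini G)⁻¹ * (y : G ⧸ frattini G)⁻¹ = 1 :=
          h3
        rw [mul_inv_eq_one, mul_inv_eq_iff_eq_mul] at h4
        exact h4 }
  refine @lin_of_comm G _ (G ⧸ frattini G) cg inferInstance p _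
    (fun x => QuotientGroup.mk' (frattini G) x) (fun x y => rfl)
    (QuotientGroup.mk'_surjective _) ?_ ?_ r hr
  · intro a
    obtain ⟨x, rfl⟩ := QuotientGroup.mk'_surjective _ a
    exact (QuotientGroup.eq_one_iff _).2 (h2 x)
  · intro K hK
    refine frattini_nongenerating ?_
    rw [eq_top_iff]
    intro x _
    obtain ⟨k, hk, hkx⟩ := hK x
    have h3 : QuotientGroup.mk' (frattini G) k = QuotientGroup.mk' (frattini G) x := hkx
    have h4 : k⁻¹ * x ∈ frattini G := QuotientGroup.eq.1 h3
    have h5 : x = k * (k⁻¹ * x) := by group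
    rw [h5]
    exact Subgroup.mul_mem_sup hk h4

end RED
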