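import Pool.Agent.RED3.Sec1

/-!
# The tuples for which the letter `o` is not needed
-/

set_option autoImplicit false

namespace RED

namespace Sec

variable {k : Type*} {V X E : Type*} [Field k] [AddCommGroup V] [Module k V] {n : ℕ}
  {q : X → V} {p : E → Fin n → X} {T : Fin n → X → E → E}

theorem lay_edge [FiniteDimensional k V] (hn : Module.finrank k V + 2 ≤ n) (hC : Cov k q p T)
    {F : Finset (Fin n)} {h0 : Fin n → X} {o : Fin n} {v : X} {s0 : (Fin n → X) → E}
    (hs : Lay k q p T F h0 o v s0) (hI : LinearIndepOn k (fun i => q (h0 i)) (F : Set (Fin n)))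
    (h : Fin n → X) (e : Fin n) (y : X) (hh : ∀ i ∈ F, h i = h0 i) (he : e ∉ F) (heo : e ≠ o)
    (h1 : Sp k q h {o}ᶜ) (h2 : Sp k q h {e}ᶜ) (h3 : Sp k q (Function.update h e y) {o}ᶜ) :
    T o (Function.update h e y o) (s0 (Function.update (Function.update h e y) o v)) =
      T e y (T o (h o) (s0 (Function.update h o v))) := by
  classical
  have hoF := hs.oF
  rw [Function.update_of_ne heo.symm, Function.update_comm heo]
  obtain ⟨h', hh'⟩ : ∃ h', h' = Function.update h o v := ⟨_, rfl⟩
  rw [← hh']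
  have h'o : h' o = v := by rw [hh', Function.update_self]
  have h'ne : ∀ i, i ≠ o → h' i = h i := fun i hi => by rw [hh', Function.update_of_ne hi]
  have h'F : ∀ i ∈ F, h' i = h0 i := fun i hi => by
    rw [h'ne i (ne_of_mem_of_not_mem hi hoF)]; exact hh i hi
  have h'back : Function.update h' o (h o) = h := by
    rw [hh', Function.update_idem, Function.update_eq_self]
  have hS'o : Sp k q h' {o}ᶜ := h1.congr fun i hi => (h'ne i (by simpa using hi)).symm
  have hpg : p (s0 h') = h' := hs.A1 h' h'F h'o (hS'o.mono (Finset.subset_univ _))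
  obtain ⟨g, hg⟩ : ∃ g, g = s0 h' := ⟨_, rfl⟩
  rw [← hg] at hpg ⊢
  by_cases hA : Sp k q h' {e}ᶜ
  · rw [hs.A2 h' e y h'F h'o he heo hA, ← hg]
    refine sq_all hn hC heo (by rw [hpg]; exact hA) (by rw [hpg]; exact hS'o) ?_ ?_
    · rw [hpg]
      refine h3.congr fun i hi => ?_
      have hi' : i ≠ o := by simpa using hi
      by_cases hie : i = e
      · rw [hie, Function.update_self, Function.update_self]
      · rw [Function.update_of_ne hie, Function.update_of_ne hie, h'ne i hi']
    · rw [hpg, h'back]; exact h2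
  -- the other case
  obtain ⟨t, ht⟩ : ∃ t : Finset (Fin n), t = {o, e}ᶜ := ⟨_, rfl⟩
  have hto : o ∉ t := by rw [ht]; simp
  have hte : e ∉ t := by rw [ht]; simp
  have hco : ({o}ᶜ : Finset (Fin n)) = insert e t := by
    ext i
    rw [ht]
    simp only [Finset.mem_compl, Finset.mem_singleton, Finset.mem_insert]
    constructor
    · intro hi
      by_cases hi' : i = e
      · exact Or.inl hi'
      · exact Or.inr (by rintro (h | h); exacts [hi h, hi' h])
    · rintro (rfl | hi)
      · exact heo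
      · exact fun hc => hi (Or.inl hc)
  have htsub : t ⊆ {e}ᶜ := fun i hi => by
    simpa using ne_of_mem_of_not_mem hi hte
  have hSt : ¬ Sp k q h t := fun h5 => hA
    ((h5.congr fun i hi => (h'ne i (ne_of_mem_of_not_mem hi hto)).symm).mono htsub)
  obtain ⟨W, hW⟩ : ∃ W, W = Spn k q h t := ⟨_, rfl⟩
  have hWe : q (h e) ∉ W := by rw [hW]; exact notMem_of (hco ▸ h1) hSt
  have hWtop : W ⊔ Submodule.span k {q (h e)} = ⊤ := by
    have h5 : Spn k q h (insert e t) = ⊤ := hco ▸ h1
    rw [Spn_insert] at h5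
    rw [hW]; exact h5
  have hWy : q y ∉ W := by
    have h5 : Spn k q (Function.update h e y) t = W := by
      rw [hW]
      exact Spn_congr fun i hi => Function.update_of_ne (ne_of_mem_of_not_mem hi hte) _ _
    have h6 : ¬ Sp k q (Function.update h e y) t := by
      intro h7
      apply hSt
      unfold Sp at h7 ⊢
      rw [← hW, ← h5, h7]
    have h8 := notMem_of (q := q) (h := Function.update h e y) (i := e) (t := t) (hco ▸ h3) h6
    rw [Function.update_self, h5] at h8
    exact h8
  have htc : t.card = n - 2 := by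
    rw [ht, Finset.card_compl, Fintype.card_fin, Finset.card_pair heo.symm]
  have hfr : Module.finrank k (Spn k q h t) < t.card := by
    have := finrank_lt (k := k) (q := q) (h := h) hSt
    omega
  have hFt : F ⊆ t := by
    intro i hi
    rw [ht]
    simp only [Finset.mem_compl, Finset.mem_insert, Finset.mem_singleton]
    rintro (h | h)
    exacts [hoF (h ▸ hi), he (h ▸ hi)]
  have hIh : LinearIndepOn k (fun i => q (h i)) (F : Set (Fin n)) :=
    hI.congr fun i hi => by
      show q (h0 i) = q (h i)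
      rw [hh i (Finset.mem_coe.1 hi)]
  obtain ⟨c, hct, hcF, hcW⟩ := la (k := k) (q := q) (h := h) hFt hIh hfr
  rw [← hW] at hcW
  have hce : c ≠ e := ne_of_mem_of_not_mem hct hte
  have hco' : c ≠ o := ne_of_mem_of_not_mem hct hto
  have key : ∀ (g : Fin n → X) (S : Finset (Fin n)) (i : Fin n), (∀ j ∈ t.erase c, g j = h j) →
      t.erase c ⊆ S → i ∈ S → q (g i) ∉ W → Sp k q g S := by
    intro g S i hg hS hi hq
    refine Sp_of hWtop ?_ hi hq
    rw [← hcW, ← Spn_congr hg]
    exact Spn_mono hS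
  have subc : t.erase c ⊆ {c}ᶜ := fun i hi => by
    simpa using (Finset.mem_erase.1 hi).1
  have sube : t.erase c ⊆ {e}ᶜ := (Finset.erase_subset _ _).trans htsub
  have subo : t.erase c ⊆ {o}ᶜ := fun i hi => by
    simpa using ne_of_mem_of_not_mem (Finset.mem_erase.1 hi).2 hto
  have mec : e ∈ ({c}ᶜ : Finset (Fin n)) := by simpa using hce.symm
  have meo : e ∈ ({o}ᶜ : Finset (Fin n)) := by simpa using heo
  have mce : c ∈ ({e}ᶜ : Finset (Fin n)) := by simpa using hce
  have mco : c ∈ ({o}ᶜ : Finset (Fin n)) := by simpa using hco'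
  -- agreement with `h` on `t.erase c` is kept by changes at `c`, `e`, `o`
  have upc : ∀ (g : Fin n → X) (w : X), (∀ j ∈ t.erase c, g j = h j) →
      ∀ j ∈ t.erase c, Function.update g c w j = h j := fun g w hg j hj => by
    rw [Function.update_of_ne (Finset.mem_erase.1 hj).1]; exact hg j hj
  have upe : ∀ (g : Fin n → X) (w : X), (∀ j ∈ t.erase c, g j = h j) →
      ∀ j ∈ t.erase c, Function.update g e w j = h j := fun g w hg j hj => by
    rw [Function.update_of_ne (ne_of_mem_of_not_mem (Finset.mem_erase.1 hj).2 hte)]; exact hg j hj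
  have upo : ∀ (g : Fin n → X) (w : X), (∀ j ∈ t.erase c, g j = h j) →
      ∀ j ∈ t.erase c, Function.update g o w j = h j := fun g w hg j hj => by
    rw [Function.update_of_ne (ne_of_mem_of_not_mem (Finset.mem_erase.1 hj).2 hto)]; exact hg j hj
  have ag0 : ∀ j ∈ t.erase c, h j = h j := fun _ _ => rfl
  have ag' : ∀ j ∈ t.erase c, h' j = h j := fun j hj =>
    h'ne j (ne_of_mem_of_not_mem (Finset.mem_erase.1 hj).2 hto)
  have h'e : h' e = h e := h'ne e heo
  have h'c : h' c = h c := h'ne c hco'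
  -- first edge
  have hSc : Sp k q h' {c}ᶜ := key h' _ e ag' subc mec (by rw [h'e]; exact hWe)
  have ed1 := hs.A2 h' c (h e) h'F h'o hcF hco' hSc
  rw [← hg] at ed1
  obtain ⟨a1, ha1⟩ : ∃ a1, a1 = Function.update h' c (h e) := ⟨_, rfl⟩
  obtain ⟨g1, hg1⟩ : ∃ g1, g1 = T c (h e) g := ⟨_, rfl⟩
  have hpg1 : p g1 = a1 := by rw [hg1, hC.pT c (h e) g (by rw [hpg]; exact hSc), hpg, ha1]
  rw [← ha1, ← hg1] at ed1
  have ag1 : ∀ j ∈ t.erase c, a1 j = h j := by rw [ha1]; exact upc _ _ ag'
  have a1c : a1 c = h e := by rw [ha1, Function.update_self]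
  have a1o : a1 o = v := by rw [ha1, Function.update_of_ne hco'.symm, h'o]
  have a1F : ∀ i ∈ F, a1 i = h0 i := fun i hi => by
    rw [ha1, Function.update_of_ne (ne_of_mem_of_not_mem hi hcF)]; exact h'F i hi
  -- second edge
  have hS1e : Sp k q a1 {e}ᶜ := key a1 _ c ag1 sube mce (by rw [a1c]; exact hWe)
  have ed2 := hs.A2 a1 e y a1F a1o he heo hS1e
  obtain ⟨a2, ha2⟩ : ∃ a2, a2 = Function.update a1 e y := ⟨_, rfl⟩
  obtain ⟨g2, hg2⟩ : ∃ g2, g2 = T e y g1 := ⟨_, rfl⟩
  have hpg2 : p g2 = a2 := by rw [hg2, hC.pT e y g1 (by rw [hpg1]; exact hS1e), hpg1, ha2]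
  rw [ed1, ← ha2, ← hg2] at ed2
  have ag2 : ∀ j ∈ t.erase c, a2 j = h j := by rw [ha2]; exact upe _ _ ag1
  have a2e : a2 e = y := by rw [ha2, Function.update_self]
  have a2o : a2 o = v := by rw [ha2, Function.update_of_ne heo.symm, a1o]
  have a2F : ∀ i ∈ F, a2 i = h0 i := fun i hi => by
    rw [ha2, Function.update_of_ne (ne_of_mem_of_not_mem hi he)]; exact a1F i hi
  -- third edge
  have hS2c : Sp k q a2 {c}ᶜ := key a2 _ e ag2 subc mec (by rw [a2e]; exact hWy)
  have ed3 := hs.A2 a2 c (h c) a2F a2o hcF hco' hS2c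
  have hup : Function.update a2 c (h c) = Function.update h' e y := by
    rw [ha2, ha1, Function.update_comm hce.symm, Function.update_idem, ← h'c,
      Function.update_eq_self]
  rw [hup, ed2] at ed3
  rw [ed3]
  -- the letter `o`
  have s3 : T o (h o) (T c (h c) g2) = T c (h c) (T o (h o) g2) := by
    refine sq_all hn hC hco' ?_ ?_ ?_ ?_ <;> rw [hpg2]
    · exact hS2c
    · exact key a2 _ e ag2 subo meo (by rw [a2e]; exact hWy)
    · exact key _ _ e (upc _ _ ag2) subo meo
        (by rw [Function.update_of_ne hce.symm, a2e]; exact hWy)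
    · exact key _ _ e (upo _ _ ag2) subc mec
        (by rw [Function.update_of_ne heo, a2e]; exact hWy)
  have s2 : T o (h o) (T e y g1) = T e y (T o (h o) g1) := by
    refine sq_all hn hC heo ?_ ?_ ?_ ?_ <;> rw [hpg1]
    · exact hS1e
    · exact key a1 _ c ag1 subo mco (by rw [a1c]; exact hWe)
    · exact key _ _ c (upe _ _ ag1) subo mco
        (by rw [Function.update_of_ne hce, a1c]; exact hWe)
    · exact key _ _ c (upo _ _ ag1) sube mce
        (by rw [Function.update_of_ne hco', a1c]; exact hWe)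
  have s1 : T o (h o) (T c (h e) g) = T c (h e) (T o (h o) g) := by
    refine sq_all hn hC hco' ?_ ?_ ?_ ?_ <;> rw [hpg]
    · exact hSc
    · exact hS'o
    · exact key _ _ e (upc _ _ ag') subo meo
        (by rw [Function.update_of_ne hce.symm, h'e]; exact hWe)
    · exact key _ _ e (upo _ _ ag') subc mec
        (by rw [Function.update_of_ne heo, h'e]; exact hWe)
  obtain ⟨b, hb⟩ : ∃ b, b = T o (h o) g := ⟨_, rfl⟩
  have hpb : p b = h := by rw [hb, hC.pT o (h o) g (by rw [hpg]; exact hS'o), hpg, h'back]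
  have hSbc : Sp k q h {c}ᶜ := key h _ e ag0 subc mec hWe
  obtain ⟨x3, hx3⟩ : ∃ x3, x3 = T c (h e) b := ⟨_, rfl⟩
  have hp3 : p x3 = Function.update h c (h e) := by
    rw [hx3, hC.pT c (h e) b (by rw [hpb]; exact hSbc), hpb]
  have s4 : T c (h c) (T e y x3) = T e y (T c (h c) x3) := by
    refine sq_all hn hC hce.symm ?_ ?_ ?_ ?_ <;> rw [hp3]
    · exact key _ _ c (upc _ _ ag0) sube mce (by rw [Function.update_self]; exact hWe)
    · exact key _ _ e (upc _ _ ag0) subc mec
        (by rw [Function.update_of_ne hce.symm]; exact hWe)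
    · exact key _ _ e (upe _ _ (upc _ _ ag0)) subc mec (by rw [Function.update_self]; exact hWy)
    · rw [Function.update_idem, Function.update_eq_self]; exact h2
  have hbb : T c (h c) x3 = b := by
    rw [hx3, hC.tri c (h e) (h c) b (by rw [hpb]; exact hSbc)]
    have := hC.self c b (by rw [hpb]; exact hSbc)
    rwa [hpb] at this
  rw [s3, hg2, s2, hg1, s1, ← hb, ← hx3, s4, hbb]

end Sec

end RED
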