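import Pool.Agent.RED3.Sec4

/-!
# From the tuples for which `o` is not needed to all tuples
-/

set_option autoImplicit false

namespace RED

namespace Sec

variable {k : Type*} {V X E : Type*} [Field k] [AddCommGroup V] [Module k V] {n : ℕ}
  {q : X → V} {p : E → Fin n → X} {T : Fin n → X → E → E}

/-- copying the value of `o` to the letter `e` frees `o` -/
theorem Sp_copy {h : Fin n → X} {e o : Fin n} (heo : e ≠ o) (hS : Sp k q h {e}ᶜ) :
    Sp k q (Function.update h e (h o)) {o}ᶜ := by
  unfold Sp at hS ⊢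
  rw [eq_top_iff, ← hS]
  unfold Spn
  apply Submodule.span_mono
  rintro w ⟨i, hi, rfl⟩
  have hie : i ≠ e := by
    intro h1
    rw [h1] at hi
    simp at hi
  rcases eq_or_ne i o with rfl | hio
  · refine ⟨e, ?_, ?_⟩
    · simpa using heo
    · simp
  · refine ⟨i, ?_, ?_⟩
    · simpa using hio
    · simp [Function.update_of_ne hie]

theorem Sp_upd {h : Fin n → X} {e : Fin n} {y : X} (hS : Sp k q h {e}ᶜ) :
    Sp k q (Function.update h e y) {e}ᶜ := by
  refine hS.congr ?_
  intro i hi
  have hie : i ≠ e := by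
    intro h1
    rw [h1] at hi
    simp at hi
  rw [Function.update_of_ne hie]

theorem agree_upd {F : Finset (Fin n)} {h0 h : Fin n → X} {e : Fin n} {y : X}
    (hh : ∀ i ∈ F, h i = h0 i) (he : e ∉ F) : ∀ i ∈ F, Function.update h e y i = h0 i := by
  intro i hi
  have hie : i ≠ e := by
    rintro rfl
    exact he hi
  rw [Function.update_of_ne hie, hh i hi]

theorem sec_of_rsec [FiniteDimensional k V] (hn : Module.finrank k V + 2 ≤ n) (hC : Cov k q p T)
    {F : Finset (Fin n)} {x0 : E} {o : Fin n} {sr : (Fin n → X) → E}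
    (hs : RSec k q p T F x0 o sr) (ho : Sp k q (p x0) {o}ᶜ)
    (hI : LinearIndepOn k (fun i => q (p x0 i)) (F : Set (Fin n))) :
    HasSec k q p T F x0 := by
  classical
  let A : (Fin n → X) → Fin n := fun h =>
    if hc : ∃ a, a ∉ F ∧ a ≠ o ∧ Sp k q h {a}ᶜ then hc.choose else o
  let s : (Fin n → X) → E := fun h =>
    if Sp k q h {o}ᶜ then sr h else T (A h) (h (A h)) (sr (Function.update h (A h) (h o)))
  have s1 : ∀ h, Sp k q h {o}ᶜ → s h = sr h := by
    intro h hh
    exact if_pos hh
  have s2 : ∀ h, (∀ i ∈ F, h i = p x0 i) → ¬ Sp k q h {o}ᶜ → ∀ a, a ∉ F → a ≠ o →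
      Sp k q h {a}ᶜ → s h = T a (h a) (sr (Function.update h a (h o))) := by
    intro h hF hh a ha1 ha2 ha3
    have hc : ∃ a, a ∉ F ∧ a ≠ o ∧ Sp k q h {a}ᶜ := ⟨a, ha1, ha2, ha3⟩
    have h1 : s h = T (A h) (h (A h)) (sr (Function.update h (A h) (h o))) := if_neg hh
    have h2 : A h = hc.choose := dif_pos hc
    obtain ⟨h3, h4, h5⟩ := hc.choose_spec
    rw [← h2] at h3 h4 h5
    rw [h1]
    exact indep_a hn hC hs hI hF hh h3 h4 h5 ha1 ha2 ha3
  refine ⟨s, ?_, ?_, ?_⟩
  · rw [s1 _ ho, hs.P0]
  · intro h hF hu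
    by_cases hh : Sp k q h {o}ᶜ
    · rw [s1 _ hh, hs.P1 h hF hh]
    · obtain ⟨a, ha1, ha2, ha3⟩ := exists_a hn hs.oF hI hF hu hh
      rw [s2 h hF hh a ha1 ha2 ha3]
      have h1 : Sp k q (Function.update h a (h o)) {o}ᶜ := Sp_copy ha2 ha3
      have h2 := hs.P1 _ (agree_upd hF ha1) h1
      rw [hC.pT, h2, Function.update_idem, Function.update_eq_self]
      rw [h2]
      exact Sp_upd ha3
  · intro h e y hF heF he
    have he2 : Sp k q (Function.update h e y) {e}ᶜ := Sp_upd he
    rcases eq_or_ne e o with rfl | heo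
    · rw [s1 _ he2, s1 _ he, hs.P3 h y hF he]
    · obtain ⟨m, hm⟩ : ∃ m, m = Function.update h e (h o) := ⟨_, rfl⟩
      have hmo : Sp k q m {o}ᶜ := hm ▸ Sp_copy heo he
      have hme : Sp k q m {e}ᶜ := hm ▸ Sp_upd he
      have hmF : ∀ i ∈ F, m i = p x0 i := hm ▸ agree_upd hF heF
      have hpm : p (sr m) = m := hs.P1 m hmF hmo
      have hF2 : ∀ i ∈ F, Function.update h e y i = p x0 i := agree_upd hF heF
      have hm2 : Function.update (Function.update h e y) e (Function.update h e y o) = m := by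
        rw [Function.update_idem, Function.update_of_ne (Ne.symm heo), hm]
      have hm3 : Function.update m e y = Function.update h e y := by
        rw [hm, Function.update_idem]
      have htri : ∀ z, T e y (T e z (sr m)) = T e y (sr m) := by
        intro z
        exact hC.tri e z y (sr m) (by rw [hpm]; exact hme)
      by_cases hh : Sp k q h {o}ᶜ
      · by_cases hh2 : Sp k q (Function.update h e y) {o}ᶜ
        · rw [s1 _ hh2, s1 _ hh]
          exact hs.P2 h e y hF heF heo hh he hh2
        · rw [s2 _ hF2 hh2 e heF heo he2, s1 _ hh, hm2, Function.update_self]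
          have h1 : sr m = T e (h o) (sr h) := by
            rw [hm]
            exact hs.P2 h e (h o) hF heF heo hh he (hm ▸ hmo)
          rw [h1]
          exact hC.tri e (h o) y (sr h) (by rw [hs.P1 h hF hh]; exact he)
      · have h1 : s h = T e (h e) (sr m) := by
          rw [s2 h hF hh e heF heo he, hm]
        rw [h1, htri]
        by_cases hh2 : Sp k q (Function.update h e y) {o}ᶜ
        · rw [s1 _ hh2, ← hm3]
          exact hs.P2 m e y hmF heF heo hmo hme (by rw [hm3]; exact hh2)
        · rw [s2 _ hF2 hh2 e heF heo he2, hm2, Function.update_self]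

end Sec

end RED
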