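import Pool.Agent.RED3.Sec2
import Pool.Agent.RED3.Sec3
import Pool.Agent.RED3.Sec5

/-!
# The section
-/

set_option autoImplicit false

namespace RED

namespace Sec

variable {k : Type*} {V X E : Type*} [Field k] [AddCommGroup V] [Module k V] {n : ℕ}
  {q : X → V} {p : E → Fin n → X} {T : Fin n → X → E → E}

/-- the section over the tuples not needing `o`, from a section over the tuples with `h o = v` -/
theorem rsec_of_lay [FiniteDimensional k V] (hn : Module.finrank k V + 2 ≤ n) (hC : Cov k q p T)
    {F : Finset (Fin n)} {x0 : E} {o : Fin n} {v : X} {s0 : (Fin n → X) → E}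
    (hs : Lay k q p T F (p x0) o v s0) (ho : Sp k q (p x0) {o}ᶜ)
    (h0 : s0 (Function.update (p x0) o v) = T o v x0)
    (hI : LinearIndepOn k (fun i => q (p x0 i)) (F : Set (Fin n))) :
    RSec k q p T F x0 o (fun h => T o (h o) (s0 (Function.update h o v))) := by
  have key : ∀ h : Fin n → X, (∀ i ∈ F, h i = p x0 i) → Sp k q h {o}ᶜ →
      p (s0 (Function.update h o v)) = Function.update h o v ∧
        Sp k q (p (s0 (Function.update h o v))) {o}ᶜ := by
    intro h hh hS
    have hag : ∀ i ∈ F, Function.update h o v i = p x0 i := by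
      intro i hi
      have hio : i ≠ o := fun hio => hs.oF (hio ▸ hi)
      rw [Function.update_of_ne hio]
      exact hh i hi
    have hS' : Sp k q (Function.update h o v) {o}ᶜ := by
      refine hS.congr fun i hi => ?_
      have hio : i ≠ o := by
        rw [Finset.mem_compl, Finset.mem_singleton] at hi
        exact hi
      rw [Function.update_of_ne hio]
    have h1 := hs.A1 _ hag (Function.update_self o v h) (hS'.mono (Finset.subset_univ _))
    refine ⟨h1, ?_⟩
    rw [h1]
    exact hS'
  refine ⟨hs.oF, ?_, ?_, ?_, ?_⟩
  · show T o (p x0 o) (s0 (Function.update (p x0) o v)) = x0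
    rw [h0, hC.tri o v (p x0 o) x0 ho, hC.self o x0 ho]
  · intro h hh hS
    obtain ⟨h1, h2⟩ := key h hh hS
    show p (T o (h o) (s0 (Function.update h o v))) = h
    rw [hC.pT o (h o) _ h2, h1, Function.update_idem, Function.update_eq_self]
  · intro h e y hh he heo h1 h2 h3
    exact lay_edge hn hC hs hI h e y hh he heo h1 h2 h3
  · intro h y hh hS
    obtain ⟨h1, h2⟩ := key h hh hS
    show T o (Function.update h o y o) (s0 (Function.update (Function.update h o y) o v)) =
      T o y (T o (h o) (s0 (Function.update h o v)))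
    rw [Function.update_self, Function.update_idem, hC.tri o (h o) y _ h2]

theorem sec_exists_aux [FiniteDimensional k V] (hn : Module.finrank k V + 2 ≤ n)
    (hC : Cov k q p T) (d : ℕ) : ∀ (F : Finset (Fin n)) (x0 : E),
    LinearIndepOn k (fun i => q (p x0 i)) (F : Set (Fin n)) →
    F.card + d = Module.finrank k V → Sp k q (p x0) Finset.univ → HasSec k q p T F x0 := by
  induction d with
  | zero =>
    intro F x0 hI hc _
    apply sec_base hC
    have h1 : Submodule.span k (Set.range (fun x : (F : Set (Fin n)) => q (p x0 x))) = ⊤ := by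
      apply LinearIndependent.span_eq_top_of_card_eq_finrank' hI
      rw [← hc, add_zero]
      simp
    unfold Sp Spn
    rw [Set.image_eq_range]
    exact h1
  | succ d ih =>
    intro F x0 hI hc hu
    have hcard : Module.finrank k (Spn k q (p x0) Finset.univ) < (Finset.univ : Finset (Fin n)).card := by
      rw [hu, finrank_top, Finset.card_univ, Fintype.card_fin]
      omega
    obtain ⟨o, -, hoF, ho⟩ := la (Finset.subset_univ F) hI hcard
    have hSo : Sp k q (p x0) {o}ᶜ := by
      unfold Sp
      rw [Finset.compl_singleton, ho]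
      exact hu
    obtain ⟨c, hc1⟩ : ∃ c, q (p x0 c) ∉ Spn k q (p x0) F := by
      by_contra hcon
      push Not at hcon
      have h1 : Spn k q (p x0) Finset.univ ≤ Spn k q (p x0) F := by
        refine Submodule.span_le.2 ?_
        rintro _ ⟨i, -, rfl⟩
        exact hcon i
      rw [hu, top_le_iff] at h1
      have h2 : Module.finrank k (Spn k q (p x0) F) ≤ F.card := by
        classical
        have h3 := finrank_span_finset_le_card (R := k) (F.image (fun i => q (p x0 i)))
        rw [Finset.coe_image] at h3
        exact h3.trans Finset.card_image_le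
      rw [h1, finrank_top] at h2
      omega
    have hp1 := hC.pT o (p x0 c) x0 hSo
    have hoff : ∀ i, i ≠ o → p (T o (p x0 c) x0) i = p x0 i := by
      intro i hi
      rw [hp1, Function.update_of_ne hi]
    have hon : p (T o (p x0 c) x0) o = p x0 c := by rw [hp1, Function.update_self]
    have hFo : ∀ i ∈ F, i ≠ o := fun i hi hio => hoF (hio ▸ hi)
    have hS1 : Sp k q (p (T o (p x0 c) x0)) {o}ᶜ := by
      refine hSo.congr fun i hi => ?_
      rw [Finset.mem_compl, Finset.mem_singleton] at hi
      exact (hoff i hi).symm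
    have hI1 : LinearIndepOn k (fun i => q (p (T o (p x0 c) x0) i)) ((insert o F : Finset (Fin n)) : Set (Fin n)) := by
      rw [Finset.coe_insert, linearIndepOn_insert (by rw [Finset.mem_coe]; exact hoF)]
      constructor
      · refine hI.congr fun i hi => ?_
        show q (p x0 i) = q (p (T o (p x0 c) x0) i)
        rw [hoff i (hFo i (Finset.mem_coe.1 hi))]
      · show q (p (T o (p x0 c) x0) o) ∉ _
        rw [hon]
        have h5 : Submodule.span k ((fun i => q (p (T o (p x0 c) x0) i)) '' (F : Set (Fin n))) =
            Spn k q (p x0) F := Spn_congr fun i hi => hoff i (hFo i hi)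
        rw [h5]
        exact hc1
    obtain ⟨s0, s1, s2, s3⟩ := ih (insert o F) (T o (p x0 c) x0) hI1
      (by rw [Finset.card_insert_of_notMem hoF]; omega) (hS1.mono (Finset.subset_univ _))
    have hag : ∀ h : Fin n → X, (∀ i ∈ F, h i = p x0 i) → h o = p x0 c →
        ∀ i ∈ insert o F, h i = p (T o (p x0 c) x0) i := by
      intro h hh hho i hi
      rcases Finset.mem_insert.1 hi with rfl | hi
      · rw [hon, hho]
      · rw [hoff i (hFo i hi)]
        exact hh i hi
    have hL : Lay k q p T F (p x0) o (p x0 c) s0 := by
      refine ⟨hoF, fun h hh hho hSh => s2 h (hag h hh hho) hSh, fun h e y hh hho he heo hSh => ?_⟩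
      refine s3 h e y (hag h hh hho) ?_ hSh
      rw [Finset.mem_insert, not_or]
      exact ⟨heo, he⟩
    have hfin := rsec_of_lay hn hC hL hSo (by rw [← hp1]; exact s1) hI
    exact sec_of_rsec hn hC hfin hSo hI

theorem sec_exists [FiniteDimensional k V] (hn : Module.finrank k V + 2 ≤ n)
    (hC : Cov k q p T) (x0 : E) (h0 : Sp k q (p x0) Finset.univ) :
    ∃ s : (Fin n → X) → E, s (p x0) = x0 ∧
      (∀ h, Sp k q h Finset.univ → p (s h) = h) ∧
      ∀ (h : Fin n → X) (e : Fin n) (y : X), Sp k q h {e}ᶜ →
        s (Function.update h e y) = T e y (s h) := by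
  obtain ⟨s, h1, h2, h3⟩ := sec_exists_aux hn hC (Module.finrank k V) ∅ x0
    (by rw [Finset.coe_empty]; exact linearIndepOn_empty _ _) (by rw [Finset.card_empty, zero_add])
    h0
  exact ⟨s, h1, fun h hh => h2 h (fun i hi => absurd hi (Finset.notMem_empty i)) hh,
    fun h e y hh => h3 h e y (fun i hi => absurd hi (Finset.notMem_empty i))
      (Finset.notMem_empty e) hh⟩

end Sec

end RED
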