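import Pool.Agent.RED3.NL2
import Pool.Agent.RED3.Sec6
import Pool.Agent.RED.Psi2

/-!
# Standard forms from the section
-/

set_option autoImplicit false

namespace RED

open AFn IAQ

theorem psi_exists3 {n : ℕ} {G : Type*} [Group G] {k V : Type*} [Field k] [AddCommGroup V]
    [Module k V] [FiniteDimensional k V] (q : G → V)
    (hq : ∀ (g : Fin n → G) (S : Finset (Fin n)), Gen g S ↔ Sec.Sp k q g S)
    (hn : Module.finrank k V + 2 ≤ n) (h1 : HL1 n G) (h2 : HL2 n G) (g0 : Fin n → G)
    (hg0 : Gen g0 Finset.univ) :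
    ∃ Ψ : (Fin n → G) → MulAut (FreeGroup (Fin n)),
      (∀ g, Gen g Finset.univ → act (Ψ g) g = g0) ∧
      ∀ (g : Fin n → G) (a : Fin n) (φ : MulAut (FreeGroup (Fin n))), φ ∈ Mv a → Gen g {a}ᶜ →
        Ψ (act φ g) * φ * (Ψ g)⁻¹ ∈ NS g0 := by
  classical
  have hn0 : 0 < n := by omega
  have hHG : NS g0 ≤ Gam g0 := NS_le_Gam h1 hn0 hg0
  -- the projection to the tuples
  let p : (MulAut (FreeGroup (Fin n)) ⧸ NS g0) → Fin n → G :=
    fun x => Quotient.liftOn' x (fun φ => act φ g0) (by
      intro a b hab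
      have h := QuotientGroup.leftRel_apply.1 hab
      have h' := mem_Gam_iff.1 (hHG h)
      show act a g0 = act b g0
      have h3 : act a (act (a⁻¹ * b) g0) = act a g0 := by rw [h']
      rw [← act_mul, mul_inv_cancel_left] at h3
      exact h3.symm)
  have hp : ∀ φ : MulAut (FreeGroup (Fin n)),
      p (φ : MulAut (FreeGroup (Fin n)) ⧸ NS g0) = act φ g0 := fun φ => rfl
  have hps : ∀ (θ : MulAut (FreeGroup (Fin n))) (x : MulAut (FreeGroup (Fin n)) ⧸ NS g0),
      p (θ • x) = act θ (p x) := by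
    intro θ x
    induction x using QuotientGroup.induction_on with
    | H φ => rw [MulAction.Quotient.smul_coe, hp, hp, smul_eq_mul, act_mul]
  -- the elements of `NS` fix the point
  have K1 : ∀ (θ : MulAut (FreeGroup (Fin n))) (x : MulAut (FreeGroup (Fin n)) ⧸ NS g0),
      θ ∈ NS (p x) → θ • x = x := by
    intro θ x hθ
    induction x using QuotientGroup.induction_on with
    | H φ =>
      rw [MulAction.Quotient.smul_coe, smul_eq_mul]
      refine QuotientGroup.eq.2 ?_
      rw [hp] at hθ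
      have h := NS_conj_L h1 h2 (act φ g0) φ⁻¹ θ⁻¹ ((NS (act φ g0)).inv_mem hθ)
      rw [act_inv_act, inv_inv] at h
      rwa [mul_inv_rev]
  -- two products of moves of `Y` with the same end
  have K2 : ∀ (Y : Finset (Fin n)) (θ θ' : MulAut (FreeGroup (Fin n)))
      (x : MulAut (FreeGroup (Fin n)) ⧸ NS g0), Gen (p x) Yᶜ → θ ∈ MvS Y → θ' ∈ MvS Y →
      act θ (p x) = act θ' (p x) → θ • x = θ' • x := by
    intro Y θ θ' x hY hθ hθ' he
    have h := K1 (θ'⁻¹ * θ) x (NS_lemY_L h2 (p x) Y hY
      (Subgroup.mul_mem _ (Subgroup.inv_mem _ hθ') hθ) (by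
        rw [mem_Gam_iff, act_mul, he, act_inv_act]))
    rwa [mul_smul, inv_smul_eq_iff] at h
  -- the chosen moves
  have hex : ∀ (h : Fin n → G) (e : Fin n) (y : G), ∃ θ : MulAut (FreeGroup (Fin n)),
      θ ∈ MvS {e} ∧ (Gen h {e}ᶜ → act θ h = Function.update h e y) := by
    intro h e y
    by_cases hg : Gen h {e}ᶜ
    · obtain ⟨θ, hθ, hθ2⟩ := exists_upd hg (fun _ => y)
      refine ⟨θ, hθ, fun _ => ?_⟩
      rw [hθ2]
      funext x
      by_cases hx : x = e
      · subst hx
        rw [upd_of_mem (Finset.mem_singleton_self _), Function.update_self]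
      · rw [upd_of_notMem (fun hx' => hx (Finset.mem_singleton.1 hx')),
          Function.update_of_ne hx]
    · exact ⟨1, Subgroup.one_mem _, fun h' => absurd h' hg⟩
  choose ψ hψ1 hψ2 using hex
  let T : Fin n → G → (MulAut (FreeGroup (Fin n)) ⧸ NS g0) →
      (MulAut (FreeGroup (Fin n)) ⧸ NS g0) := fun e y x => ψ (p x) e y • x
  have hT : ∀ e y x, T e y x = ψ (p x) e y • x := fun e y x => rfl
  have hpT : ∀ (e : Fin n) (y : G) (x : MulAut (FreeGroup (Fin n)) ⧸ NS g0),
      Gen (p x) {e}ᶜ → p (T e y x) = Function.update (p x) e y := by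
    intro e y x hx
    rw [hT, hps, hψ2 _ _ _ hx]
  have hGu : ∀ (h : Fin n → G) (e : Fin n) (y : G) (S : Finset (Fin n)), e ∉ S → Gen h S →
      Gen (Function.update h e y) S := by
    intro h e y S he hS
    refine Gen_congr (fun x hx => ?_) hS
    have hxe : x ≠ e := by
      rintro rfl
      exact he hx
    rw [Function.update_of_ne hxe]
  have hsub1 : ∀ (a b : Fin n), ({a, b} : Finset (Fin n))ᶜ ⊆ {a}ᶜ := by
    intro a b
    exact Finset.compl_subset_compl.2 (Finset.singleton_subset_iff.2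
      (Finset.mem_insert_self _ _))
  have hsub2 : ∀ (a b : Fin n), ({a, b} : Finset (Fin n))ᶜ ⊆ {b}ᶜ := by
    intro a b
    exact Finset.compl_subset_compl.2 (Finset.singleton_subset_iff.2
      (Finset.mem_insert_of_mem (Finset.mem_singleton_self _)))
  have hC : Sec.Cov k q p T := by
    refine ⟨?_, ?_, ?_, ?_⟩
    · intro e y x hx
      exact hpT e y x ((hq _ _).2 hx)
    · intro e x hx
      have hx' := (hq _ _).2 hx
      rw [hT]
      conv_rhs => rw [← one_smul (MulAut (FreeGroup (Fin n))) x]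
      refine K2 {e} _ _ x hx' (hψ1 _ _ _) (Subgroup.one_mem _) ?_
      rw [hψ2 _ _ _ hx', Function.update_eq_self, act_one]
    · intro e y z x hx
      have hx' := (hq _ _).2 hx
      have h3 : Gen (p (T e y x)) {e}ᶜ := by
        rw [hpT e y x hx']
        exact hGu _ _ _ _ (fun h => (Finset.mem_compl.1 h) (Finset.mem_singleton_self _)) hx'
      rw [hT e z (T e y x), hT e z x]
      have h4 : ψ (p (T e y x)) e z • T e y x =
          (ψ (p (T e y x)) e z * ψ (p x) e y) • x := by
        rw [mul_smul, ← hT]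
      rw [h4]
      refine K2 {e} _ _ x hx' (Subgroup.mul_mem _ (hψ1 _ _ _) (hψ1 _ _ _)) (hψ1 _ _ _) ?_
      have h5 : act (ψ (p x) e y) (p x) = p (T e y x) := by rw [hT, hps]
      rw [act_mul, h5, hψ2 _ _ _ h3, hpT e y x hx', hψ2 _ _ _ hx', Function.update_idem]
    · intro e e' y z x hne hx
      have hx' := (hq _ _).2 hx
      have he := Gen_mono (hsub1 e e') hx'
      have he' := Gen_mono (hsub2 e e') hx'
      have h3 : Gen (p (T e y x)) {e'}ᶜ := by
        rw [hpT e y x he]
        refine Gen_mono (hsub2 e e') (hGu _ _ _ _ (fun h => (Finset.mem_compl.1 h)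
          (Finset.mem_insert_self _ _)) hx')
      have h3' : Gen (p (T e' z x)) {e}ᶜ := by
        rw [hpT e' z x he']
        refine Gen_mono (hsub1 e e') (hGu _ _ _ _ (fun h => (Finset.mem_compl.1 h)
          (Finset.mem_insert_of_mem (Finset.mem_singleton_self _))) hx')
      have h4 : T e' z (T e y x) = (ψ (p (T e y x)) e' z * ψ (p x) e y) • x := by
        rw [mul_smul, ← hT]
      have h4' : T e y (T e' z x) = (ψ (p (T e' z x)) e y * ψ (p x) e' z) • x := by
        rw [mul_smul, ← hT]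
      have hm : ∀ u : MulAut (FreeGroup (Fin n)), u ∈ MvS {e} → u ∈ MvS {e, e'} := fun u hu =>
        MvS_mono (Finset.singleton_subset_iff.2 (Finset.mem_insert_self _ _)) hu
      have hm' : ∀ u : MulAut (FreeGroup (Fin n)), u ∈ MvS {e'} → u ∈ MvS {e, e'} :=
        fun u hu => MvS_mono (Finset.singleton_subset_iff.2 (Finset.mem_insert_of_mem
          (Finset.mem_singleton_self _))) hu
      rw [h4, h4']
      refine K2 {e, e'} _ _ x hx'
        (Subgroup.mul_mem _ (hm' _ (hψ1 _ _ _)) (hm _ (hψ1 _ _ _)))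
        (Subgroup.mul_mem _ (hm _ (hψ1 _ _ _)) (hm' _ (hψ1 _ _ _))) ?_
      have h5 : act (ψ (p x) e y) (p x) = p (T e y x) := by rw [hT, hps]
      have h5' : act (ψ (p x) e' z) (p x) = p (T e' z x) := by rw [hT, hps]
      rw [act_mul, act_mul, h5, h5', hψ2 _ _ _ h3, hψ2 _ _ _ h3', hpT e y x he,
        hpT e' z x he', Function.update_comm hne]
  -- the section
  have hx0 : p ((1 : MulAut (FreeGroup (Fin n))) : MulAut (FreeGroup (Fin n)) ⧸ NS g0) = g0 := by
    rw [hp, act_one]
  obtain ⟨s, hs0, hs1, hs2⟩ := Sec.sec_exists hn hC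
    ((1 : MulAut (FreeGroup (Fin n))) : MulAut (FreeGroup (Fin n)) ⧸ NS g0)
    (by rw [hx0]; exact (hq _ _).1 hg0)
  have hout : ∀ g, Gen g Finset.univ → act (Quotient.out (s g)) g0 = g := by
    intro g hg
    have h3 := hs1 g ((hq _ _).1 hg)
    have h4 : ((Quotient.out (s g) : MulAut (FreeGroup (Fin n))) :
        MulAut (FreeGroup (Fin n)) ⧸ NS g0) = s g := QuotientGroup.out_eq' _
    rw [← h4, hp] at h3
    exact h3
  refine ⟨fun g => (Quotient.out (s g))⁻¹, ?_, ?_⟩
  · intro g hg
    have h3 := act_inv_act (Quotient.out (s g)) g0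
    rwa [hout g hg] at h3
  · intro g a φ hφ hg
    have hgu : Gen g Finset.univ := Gen_mono (Finset.subset_univ _) hg
    have hag : act φ g = Function.update g a (act φ g a) := by
      funext x
      by_cases hx : x = a
      · subst hx
        rw [Function.update_self]
      · rw [Function.update_of_ne hx]
        exact Mv_act g hx hφ
    have hpg : p (s g) = g := hs1 g ((hq _ _).1 hgu)
    have h3 : s (act φ g) = φ • s g := by
      rw [hag, hs2 g a (act φ g a) ((hq _ _).1 hg), hT]
      refine K2 {a} _ _ (s g) (by rw [hpg]; exact hg) (hψ1 _ _ _)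
        (Mv_le_MvS (Finset.mem_singleton_self a) hφ) ?_
      rw [hpg, hψ2 _ _ _ hg, ← hag]
    have h4 : ((Quotient.out (s g) : MulAut (FreeGroup (Fin n))) :
        MulAut (FreeGroup (Fin n)) ⧸ NS g0) = s g := QuotientGroup.out_eq' _
    have h5 : ((Quotient.out (s (act φ g)) : MulAut (FreeGroup (Fin n))) :
        MulAut (FreeGroup (Fin n)) ⧸ NS g0) = s (act φ g) := QuotientGroup.out_eq' _
    have h6 : ((Quotient.out (s (act φ g)) : MulAut (FreeGroup (Fin n))) :
        MulAut (FreeGroup (Fin n)) ⧸ NS g0) =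
        ((φ * Quotient.out (s g) : MulAut (FreeGroup (Fin n))) :
          MulAut (FreeGroup (Fin n)) ⧸ NS g0) := by
      rw [h5, h3]
      conv_lhs => rw [← h4]
      rw [MulAction.Quotient.smul_coe, smul_eq_mul]
    have h7 := QuotientGroup.eq.1 h6
    show (Quotient.out (s (act φ g)))⁻¹ * φ * ((Quotient.out (s g))⁻¹)⁻¹ ∈ NS g0
    rw [inv_inv, mul_assoc]
    exact h7

end RED
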