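import Mathlib
import Pool.Agent.RED.HypMain
import Pool.Agent.RED.BMain
import Pool.Agent.RED.Final
import Pool.Agent.RED3.Psi3
import Pool.Agent.RED3.GenAll3
import Pool.Agent.RED3.HLp
import Pool.Agent.RED3.PGrp

/-!
# Finite image for `p`-groups of almost maximal rank
-/

set_option autoImplicit false

namespace RED

open AFn IAQ

theorem gam_le_NS3 {n : ℕ} {G : Type*} [Group G] {k V : Type*} [Field k] [AddCommGroup V]
    [Module k V] [FiniteDimensional k V] (q : G → V)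
    (hq : ∀ (g : Fin n → G) (S : Finset (Fin n)), Gen g S ↔ Sec.Sp k q g S)
    (hn : Module.finrank k V + 3 ≤ n) (g : Fin n → G) (hg : Gen g Finset.univ) :
    Gam g ≤ NS g := by
  have h1 : HL1 n G := HL1_of hq hn
  have h2 : HL2 n G := HL2_of hq (by omega)
  obtain ⟨Ψ, hΨ, hΨ2⟩ := psi_exists3 q hq (by omega) h1 h2 g hg
  exact gen_all3 h1 hg Ψ hΨ hΨ2 (NS_conj_L h1 h2) g hg

/-- a generating tuple can be brought to a standard form -/
theorem exists_std3 {n : ℕ} {G : Type*} [Group G] {k V : Type*} [Field k] [AddCommGroup V]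
    [Module k V] [FiniteDimensional k V] (q : G → V)
    (hq : ∀ (g : Fin n → G) (S : Finset (Fin n)), Gen g S ↔ Sec.Sp k q g S)
    (g : Fin n → G) (hg : Gen g Finset.univ) :
    ∃ (φ : MulAut (FreeGroup (Fin n))) (I : Finset (Fin n)), Iᶜ.card = Module.finrank k V ∧
      Gen (act φ g) Iᶜ ∧ ∀ i ∈ I, act φ g i = 1 := by
  obtain ⟨M, -, h2, h3⟩ := ((hq g _).1 hg).exists_basis
  have h4 : Gen g Mᶜᶜ := by rw [compl_compl]; exact (hq g M).2 h3
  obtain ⟨t, -, hta⟩ := exists_upd h4 (fun _ => 1)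
  refine ⟨t, Mᶜ, by rw [compl_compl, h2], ?_, ?_⟩
  · refine Gen_congr (fun x hx => ?_) h4
    rw [hta, upd_of_notMem (Finset.mem_compl.1 hx)]
  · intro i hi
    rw [hta, upd_of_mem hi]

theorem final_gam_range3 {n m : ℕ} {G : Type*} [Group G] [Finite G] {k V : Type*} [Field k]
    [AddCommGroup V] [Module k V] [FiniteDimensional k V] (q : G → V)
    (hq : ∀ (g : Fin n → G) (S : Finset (Fin n)), Gen g S ↔ Sec.Sp k q g S)
    (g : Fin n → G) (hg : Gen g Finset.univ) (Hin : Subgroup (MulAut (FreeGroup (Fin n))))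
    (ρ : Hin →* Matrix.GeneralLinearGroup (Fin m) ℤ) (I : Finset (Fin n))
    (hn : Module.finrank k V + 5 ≤ n) (hf : Hin.FiniteIndex) (hm : m + 2 ≤ n)
    (hm2 : m ≤ 2 ^ (n - 2 - Module.finrank k V) + 1)
    (hΓ : Gam g ≤ Hin) (hIc : Iᶜ.card = Module.finrank k V) (hgen : Gen g Iᶜ)
    (h1 : ∀ i ∈ I, g i = 1) :
    {y | ∃ (x : MulAut (FreeGroup (Fin n))) (hx : x ∈ Gam g), y = ρ ⟨x, hΓ hx⟩}.Finite := by
  have hcard : I.card + Iᶜ.card = n := by
    have := Finset.card_add_card_compl I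
    rwa [Fintype.card_fin] at this
  have hI : 5 ≤ I.card := by omega
  have hyp : Hyp g I (ρ.comp (Subgroup.inclusion hΓ)) :=
    hyp_main g I Hin ρ hf hm hΓ h1 hI (by omega) (by rw [hIc]; exact hm2)
  have hE := all_finite g I (ρ.comp (Subgroup.inclusion hΓ)) hyp hI
  set E := Subgroup.closure {x | ∃ φ, φ ∈ Gam g ∧ (∃ c, φ ∈ Mv c) ∧
    x = fe g (ρ.comp (Subgroup.inclusion hΓ)) φ} with hEd
  have key : ∀ φ ∈ NN g, φ ∈ Gam g ∧ fe g (ρ.comp (Subgroup.inclusion hΓ)) φ ∈ E := by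
    intro φ hφ
    induction hφ using Subgroup.closure_induction with
    | mem x hx =>
      exact ⟨hx.1, Subgroup.subset_closure ⟨x, hx.1, hx.2, rfl⟩⟩
    | one => exact ⟨(Gam g).one_mem, by rw [fe_one]; exact E.one_mem⟩
    | mul x y _ _ hx hy =>
      refine ⟨(Gam g).mul_mem hx.1 hy.1, ?_⟩
      rw [fe_mul _ _ hx.1 hy.1]
      exact E.mul_mem hx.2 hy.2
    | inv x _ hx =>
      refine ⟨(Gam g).inv_mem hx.1, ?_⟩
      rw [fe_inv _ _ hx.1]
      exact E.inv_mem hx.2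
  have hEf : (E : Set (Matrix.GeneralLinearGroup (Fin m) ℤ)).Finite := Set.toFinite _
  have hIne : I.Nonempty := Finset.card_pos.1 (by omega)
  refine hEf.subset ?_
  rintro y ⟨x, hx, rfl⟩
  have h2 := (key x (NS_std hIne hgen h1 (gam_le_NS3 q hq (by omega) g hg hx))).2
  rw [fe_of_mem _ _ hx] at h2
  exact h2

theorem final3 {n m : ℕ} {G : Type*} [Group G] [Finite G] {k V : Type*} [Field k]
    [AddCommGroup V] [Module k V] [FiniteDimensional k V] (q : G → V)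
    (hq : ∀ (g : Fin n → G) (S : Finset (Fin n)), Gen g S ↔ Sec.Sp k q g S)
    (g : Fin n → G) (hg : Gen g Finset.univ) (Hin : Subgroup (MulAut (FreeGroup (Fin n))))
    (ρ : Hin →* Matrix.GeneralLinearGroup (Fin m) ℤ)
    (hn : Module.finrank k V + 5 ≤ n) (hf : Hin.FiniteIndex) (hm : m + 2 ≤ n)
    (hm2 : m ≤ 2 ^ (n - 2 - Module.finrank k V) + 1)
    (hΓ : Gam g ≤ Hin) : Finite ρ.range := by
  obtain ⟨φ, I, hIc, hgen, h1⟩ := exists_std3 q hq g hg
  set cj : MulAut (FreeGroup (Fin n)) →* MulAut (FreeGroup (Fin n)) :=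
    (MulAut.conj φ⁻¹).toMonoidHom with hcj
  have hcja : ∀ x, cj x = φ⁻¹ * x * φ := by
    intro x
    show φ⁻¹ * x * φ⁻¹⁻¹ = _
    rw [inv_inv]
  have hg1 : Gen (act φ g) Finset.univ := Gen_mono (Finset.subset_univ _) hgen
  have hΓ' : Gam (act φ g) ≤ Hin.comap cj := by
    intro x hx
    rw [Subgroup.mem_comap, hcja]
    apply hΓ
    have h2 := Gam_conj hx φ⁻¹
    rwa [act_inv_act, inv_inv] at h2
  have hsj : Function.Surjective cj := (MulAut.conj φ⁻¹).surjective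
  have hfi : (Hin.comap cj).FiniteIndex :=
    ⟨by rw [Subgroup.index_comap_of_surjective Hin hsj]; exact hf.index_ne_zero⟩
  have h3 := final_gam_range3 q hq (act φ g) hg1 (Hin.comap cj) (ρ.comp (cj.subgroupComap Hin)) I
    hn hfi hm hm2 hΓ' hIc hgen h1
  refine final_of_finite g Hin ρ hΓ (h3.subset ?_)
  rintro y ⟨x, hx, rfl⟩
  refine ⟨φ * x * φ⁻¹, Gam_conj hx φ, ?_⟩
  show ρ _ = ρ _
  congr 1
  apply Subtype.ext
  show x = cj (φ * x * φ⁻¹)
  rw [hcja]
  group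

theorem final_p {n m r p : ℕ} [Fact p.Prime] {G : Type*} [Group G] [Finite G]
    (hG : IsPGroup p G) (hr : RB G r) (g : Fin n → G) (hg : Function.Surjective (ev g))
    (Hin : Subgroup (MulAut (FreeGroup (Fin n))))
    (ρ : Hin →* Matrix.GeneralLinearGroup (Fin m) ℤ)
    (hn : r + 5 ≤ n) (hf : Hin.FiniteIndex) (hm : m + 2 ≤ n)
    (hm2 : m ≤ 2 ^ (n - 2 - r) + 1) (hΓ : Gam g ≤ Hin) : Finite ρ.range := by
  obtain ⟨V, i1, i2, i3, q, h1, h2⟩ := pgroup_lin hG hr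
  have hgu : Gen g Finset.univ := by
    intro x
    obtain ⟨w, hw⟩ := hg x
    refine ⟨w, ?_, hw⟩
    have h6 : fsub (Finset.univ : Finset (Fin n)) = ⊤ := by
      rw [eq_top_iff, ← FreeGroup.closure_range_of]
      unfold fsub
      refine Subgroup.closure_mono ?_
      rintro _ ⟨y, rfl⟩
      exact ⟨y, by simp, rfl⟩
    rw [h6]
    exact Subgroup.mem_top w
  refine final3 q (h2 n) g hgu Hin ρ (by omega) hf hm (hm2.trans ?_) hΓ
  exact Nat.add_le_add_right (Nat.pow_le_pow_right (by norm_num) (by omega)) 1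

end RED
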