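import Pool.Agent.RED3.NL1
import Pool.Agent.RED.NS3

/-!
# The transported groups are conjugated into each other, under `HL1` and `HL2`
-/

set_option autoImplicit false

namespace RED

open AFn IAQ

namespace NConjL

variable {n : ℕ} {G : Type*} [Group G]

theorem kill_mem {i : Fin n} {w : FreeGroup (Fin n)} (h : kill i w = w) :
    w ∈ fsub ({i}ᶜ : Finset (Fin n)) := by
  have h1 : kill i = ret ({i}ᶜ : Finset (Fin n)) := by
    ext x
    by_cases hx : x = i <;> simp [kill, ret, hx]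
  rw [← h, h1]
  exact ret_mem _ _

/-- the core: `s` moves only the letter `a` and uses only the letter `b` -/
theorem core (h1 : HL1 n G) (h2 : HL2 n G)
    {s : MulAut (FreeGroup (Fin n))} {a b : Fin n}
    (hs1 : ∀ y, y ≠ a → y ≠ b → Pres y s)
    (hs2 : ∀ x, x ≠ a → s⁻¹ (FreeGroup.of x) = FreeGroup.of x)
    (hs3 : s⁻¹ (FreeGroup.of a) ∈ fsub {a, b})
    (hs4 : ∀ (g : Fin n → G) (e : Fin n) (ψ : MulAut (FreeGroup (Fin n))), e ≠ a → e ≠ b →
      g e = 1 → ψ ∈ NN g → s * ψ * s⁻¹ ∈ NN (act s g))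
    (g : Fin n → G) (ψ : MulAut (FreeGroup (Fin n))) (hψ : ψ ∈ NS g) :
    s * ψ * s⁻¹ ∈ NS (act s g) := by
  by_cases hg : Gen g Finset.univ
  · obtain ⟨e, hea, heb, hG⟩ := h1 g a b hg
    have hG' : Gen (act s g) {e}ᶜ := by
      intro k
      obtain ⟨u, hu, hk⟩ := hG k
      refine ⟨s u, kill_mem ?_, ?_⟩
      · have h3 := (hs1 e hea heb).2 u
        rwa [kill_eq hu (by simp)] at h3
      · rw [ev_act, ← MulAut.mul_apply, inv_mul_cancel]
        exact hk
    obtain ⟨Y, hY⟩ : ∃ Y : Finset (Fin n), Y = {e} := ⟨_, rfl⟩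
    rw [← hY] at hG hG'
    have he : e ∈ Y := by simp [hY]
    have haY : a ∉ Y := by
      rw [hY, Finset.mem_singleton]
      exact Ne.symm hea
    have hbY : b ∉ Y := by
      rw [hY, Finset.mem_singleton]
      exact Ne.symm heb
    have hab : ({a, b} : Finset (Fin n)) ⊆ Yᶜ := by
      intro x hx
      rw [Finset.mem_insert, Finset.mem_singleton] at hx
      rw [Finset.mem_compl]
      rcases hx with rfl | rfl
      · exact haY
      · exact hbY
    have hYne : Y.Nonempty := ⟨e, he⟩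
    obtain ⟨t, ht, hta⟩ := exists_upd hG (fun _ => 1)
    have hta : act t g = rs g Y := hta
    have hV : Val g Y t := ⟨hYne, hG, ht, hta⟩
    have hrs : act s (rs g Y) = rs (act s g) Y := by
      refine NConj.act_rs (fun x hx => hs2 x fun h => haY (h ▸ hx)) (fun x hx => ?_) g
      by_cases hxa : x = a
      · rw [hxa]
        exact fsub_mono hab hs3
      · rw [hs2 x hxa]
        exact of_mem_fsub (Finset.mem_compl.2 hx)
    have hV' : Val (act s g) Y (s * t * s⁻¹) := by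
      refine ⟨hYne, hG', NConj.conj_MvS (fun y hy => hs1 y (fun h => haY (h ▸ hy))
        fun h => hbY (h ▸ hy)) ht, ?_⟩
      rw [← act_mul, inv_mul_cancel_right, act_mul, hta, hrs]
    refine mem_NS_of_L h2 hV' ?_
    have h3 := hs4 (rs g Y) e (t * ψ * t⁻¹) hea heb (if_pos he) (hψ Y t hV)
    rw [hrs] at h3
    have e1 : s * t * s⁻¹ * (s * ψ * s⁻¹) * (s * t * s⁻¹)⁻¹ = s * (t * ψ * t⁻¹) * s⁻¹ := by group
    rw [e1]
    exact h3
  · intro Y t hV
    refine absurd (fun h => ?_) hg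
    obtain ⟨w, -, hw⟩ := hV.2.1 h
    rw [ev_act] at hw
    exact ⟨s⁻¹ w, NConj.mem_fu _, hw⟩

theorem PS_sg (h1 : HL1 n G) (h2 : HL2 n G) (a : Fin n) : NConj.PS G (sg a) := by
  intro g ψ hψ
  refine core h1 h2 (a := a) (b := a) (fun y hy _ => pres_sg hy) (fun x hx => ?_) ?_
    (fun g e ψ _ _ _ h => inv_sg g a h) g ψ hψ
  · rw [sg_inv, sg_of_ne hx]
  · rw [sg_inv, sg_of_self]
    exact (fsub _).inv_mem (of_mem_fsub (by simp))

theorem PS_R (h1 : HL1 n G) (h2 : HL2 n G) {a b : Fin n} (hab : a ≠ b)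
    {w : FreeGroup (Fin n)} (hw : w ∈ fsub {b}) : NConj.PS G (R a w) := by
  intro g ψ hψ
  have hk : ∀ y, y ≠ b → kill y w = w := fun y hy => kill_eq hw (by simpa using hy)
  refine core h1 h2 (a := a) (b := b) (fun y hya hyb => pres_R hya (hk y hyb)) (fun x hx => ?_) ?_
    (fun g e ψ hea heb hge h => inv_R hea (hk a hab) (hk e heb) hge h) g ψ hψ
  · rw [R_inv, R_of_ne hx]
  · rw [R_inv, R_of_self, map_inv, hk a hab]
    refine (fsub _).mul_mem (of_mem_fsub (by simp)) ((fsub _).inv_mem ?_)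
    exact fsub_mono (by simp) hw

end NConjL

theorem NS_conj_L {n : ℕ} {G : Type*} [Group G] (h1 : HL1 n G) (h2 : HL2 n G) (g : Fin n → G)
    (φ ψ : MulAut (FreeGroup (Fin n))) (hψ : ψ ∈ NS g) : φ * ψ * φ⁻¹ ∈ NS (act φ g) := by
  have hφ : φ ∈ Subgroup.closure
      ({φ : MulAut (FreeGroup (Fin n)) | ∃ a b, a ≠ b ∧ φ = R a (FreeGroup.of b)} ∪
        {φ | ∃ a, φ = sg a}) := by
    rw [gen_top]
    exact Subgroup.mem_top φ
  have h : NConj.PS G φ ∧ NConj.PS G φ⁻¹ := by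
    induction hφ using Subgroup.closure_induction with
    | mem x hx =>
      rcases hx with ⟨a, b, hab, rfl⟩ | ⟨a, rfl⟩
      · have hb : FreeGroup.of b ∈ fsub {b} := of_mem_fsub (by simp)
        refine ⟨NConjL.PS_R h1 h2 hab hb, ?_⟩
        rw [R_inv]
        exact NConjL.PS_R h1 h2 hab ((fsub _).inv_mem hb)
      · rw [sg_inv]
        exact ⟨NConjL.PS_sg h1 h2 a, NConjL.PS_sg h1 h2 a⟩
    | one => rw [inv_one]; exact ⟨NConj.PS_one, NConj.PS_one⟩
    | mul x y _ _ hx hy =>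
      rw [mul_inv_rev]
      exact ⟨NConj.PS_mul hx.1 hy.1, NConj.PS_mul hy.2 hx.2⟩
    | inv x _ hx =>
      rw [inv_inv]
      exact ⟨hx.2, hx.1⟩
  exact h.1 g ψ hψ

end RED
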