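import Mathlib

/-!
# Spanning letters and coverings of the set of tuples: definitions and linear algebra
-/

set_option autoImplicit false

namespace RED

namespace Sec

section

variable (k : Type*) {V X : Type*} [Field k] [AddCommGroup V] [Module k V] {n : ℕ}

/-- the span of the values of the letters of `S` -/
def Spn (q : X → V) (h : Fin n → X) (S : Finset (Fin n)) : Submodule k V :=
  Submodule.span k ((fun i => q (h i)) '' (S : Set (Fin n)))

/-- the letters of `S` span -/
def Sp (q : X → V) (h : Fin n → X) (S : Finset (Fin n)) : Prop := Spn k q h S = ⊤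

/-- moves `T e y` (giving the letter `e` the value `y`) on a set `E` over the set of tuples -/
structure Cov {E : Type*} (q : X → V) (p : E → Fin n → X) (T : Fin n → X → E → E) : Prop where
  pT : ∀ (e : Fin n) (y : X) (x : E), Sp k q (p x) {e}ᶜ → p (T e y x) = Function.update (p x) e y
  self : ∀ (e : Fin n) (x : E), Sp k q (p x) {e}ᶜ → T e (p x e) x = x
  tri : ∀ (e : Fin n) (y z : X) (x : E), Sp k q (p x) {e}ᶜ → T e z (T e y x) = T e z x
  sq : ∀ (e e' : Fin n) (y z : X) (x : E), e ≠ e' → Sp k q (p x) {e, e'}ᶜ →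
    T e' z (T e y x) = T e y (T e' z x)

/-- a section over the tuples agreeing with `p x0` on `F` -/
def HasSec {E : Type*} (q : X → V) (p : E → Fin n → X) (T : Fin n → X → E → E)
    (F : Finset (Fin n)) (x0 : E) : Prop :=
  ∃ s : (Fin n → X) → E, s (p x0) = x0 ∧
    (∀ h, (∀ i ∈ F, h i = p x0 i) → Sp k q h Finset.univ → p (s h) = h) ∧
    ∀ (h : Fin n → X) (e : Fin n) (y : X), (∀ i ∈ F, h i = p x0 i) → e ∉ F → Sp k q h {e}ᶜ →
      s (Function.update h e y) = T e y (s h)

/-- a section over the tuples `h` agreeing with `p x0` on `F` and with `Sp k q h {o}ᶜ` -/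
structure RSec {E : Type*} (q : X → V) (p : E → Fin n → X) (T : Fin n → X → E → E)
    (F : Finset (Fin n)) (x0 : E) (o : Fin n) (sr : (Fin n → X) → E) : Prop where
  oF : o ∉ F
  P0 : sr (p x0) = x0
  P1 : ∀ h, (∀ i ∈ F, h i = p x0 i) → Sp k q h {o}ᶜ → p (sr h) = h
  P2 : ∀ (h : Fin n → X) (e : Fin n) (y : X), (∀ i ∈ F, h i = p x0 i) → e ∉ F → e ≠ o →
    Sp k q h {o}ᶜ → Sp k q h {e}ᶜ → Sp k q (Function.update h e y) {o}ᶜ →
      sr (Function.update h e y) = T e y (sr h)
  P3 : ∀ (h : Fin n → X) (y : X), (∀ i ∈ F, h i = p x0 i) → Sp k q h {o}ᶜ →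
    sr (Function.update h o y) = T o y (sr h)

/-- a section over the tuples `h` agreeing with `h0` on `F` and with `h o = v` -/
structure Lay {E : Type*} (q : X → V) (p : E → Fin n → X) (T : Fin n → X → E → E)
    (F : Finset (Fin n)) (h0 : Fin n → X) (o : Fin n) (v : X) (s0 : (Fin n → X) → E) : Prop where
  oF : o ∉ F
  A1 : ∀ h, (∀ i ∈ F, h i = h0 i) → h o = v → Sp k q h Finset.univ → p (s0 h) = h
  A2 : ∀ (h : Fin n → X) (e : Fin n) (y : X), (∀ i ∈ F, h i = h0 i) → h o = v → e ∉ F → e ≠ o →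
    Sp k q h {e}ᶜ → s0 (Function.update h e y) = T e y (s0 h)

end

/-! ### basic facts -/

section

variable {k : Type*} {V X : Type*} [Field k] [AddCommGroup V] [Module k V] {n : ℕ}
  {q : X → V} {h h' : Fin n → X} {S S' t F : Finset (Fin n)}

theorem Spn_mono (hS : S ⊆ S') : Spn k q h S ≤ Spn k q h S' :=
  Submodule.span_mono (Set.image_mono (Finset.coe_subset.2 hS))

theorem Spn_congr (hh : ∀ i ∈ S, h i = h' i) : Spn k q h S = Spn k q h' S := by
  unfold Spn
  congr 1
  apply Set.image_congr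
  intro i hi
  rw [hh i (Finset.mem_coe.1 hi)]

theorem Spn_insert (i : Fin n) : Spn k q h (insert i S) =
    Spn k q h S ⊔ Submodule.span k {q (h i)} := by
  unfold Spn
  rw [Finset.coe_insert, Set.image_insert_eq, Submodule.span_insert, sup_comm]

theorem mem_Spn {i : Fin n} (hi : i ∈ S) : q (h i) ∈ Spn k q h S :=
  Submodule.subset_span ⟨i, Finset.mem_coe.2 hi, rfl⟩

theorem Sp.mono (hS : Sp k q h S) (hSS : S ⊆ S') : Sp k q h S' := by
  unfold Sp at hS ⊢
  rw [eq_top_iff, ← hS]
  exact Spn_mono hSS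

theorem Sp.congr (hS : Sp k q h S) (hh : ∀ i ∈ S, h i = h' i) : Sp k q h' S := by
  unfold Sp at hS ⊢
  rw [← Spn_congr hh, hS]

/-- exchange -/
theorem exch {W : Submodule k V} {u v : V} (hW : W ⊔ Submodule.span k {v} = ⊤) (hu : u ∉ W) :
    W ⊔ Submodule.span k {u} = ⊤ := by
  have h1 : u ∈ W ⊔ Submodule.span k {v} := by rw [hW]; exact Submodule.mem_top
  obtain ⟨w, hw, z, hz, hwz⟩ := Submodule.mem_sup.1 h1
  obtain ⟨c, rfl⟩ := Submodule.mem_span_singleton.1 hz
  have hc : c ≠ 0 := by
    rintro rfl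
    rw [zero_smul, add_zero] at hwz
    exact hu (hwz ▸ hw)
  rw [eq_top_iff, ← hW]
  refine sup_le le_sup_left ?_
  rw [Submodule.span_singleton_le_iff_mem]
  have h2 : v = c⁻¹ • (u - w) := by
    rw [← hwz, add_sub_cancel_left, smul_smul, inv_mul_cancel₀ hc, one_smul]
  rw [h2]
  refine Submodule.smul_mem _ _ (Submodule.sub_mem _ ?_ ?_)
  · exact Submodule.mem_sup_right (Submodule.mem_span_singleton_self u)
  · exact Submodule.mem_sup_left hw

/-- a hyperplane and a letter outside -/
theorem Sp_of {W : Submodule k V} {v : V} (hW : W ⊔ Submodule.span k {v} = ⊤)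
    (hS : W ≤ Spn k q h S) {i : Fin n} (hi : i ∈ S) (hq : q (h i) ∉ W) : Sp k q h S := by
  unfold Sp
  rw [eq_top_iff, ← exch hW hq]
  refine sup_le hS ?_
  rw [Submodule.span_singleton_le_iff_mem]
  exact mem_Spn hi

theorem notMem_of {i : Fin n} (hS : Sp k q h (insert i t)) (ht : ¬ Sp k q h t) :
    q (h i) ∉ Spn k q h t := by
  intro hi
  apply ht
  unfold Sp at hS ⊢
  rw [Spn_insert, sup_eq_left.2 ((Submodule.span_singleton_le_iff_mem _ _).2 hi)] at hS
  exact hS

theorem finrank_lt [FiniteDimensional k V] (ht : ¬ Sp k q h t) :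
    Module.finrank k (Spn k q h t) < Module.finrank k V :=
  Submodule.finrank_lt ht

theorem exists_ext (hF : F ⊆ t) (hI : LinearIndepOn k (fun i => q (h i)) (F : Set (Fin n))) :
    ∃ B : Finset (Fin n), F ⊆ B ∧ B ⊆ t ∧ B.card = Module.finrank k (Spn k q h t) ∧
      Spn k q h B = Spn k q h t := by
  classical
  obtain ⟨b, hbt, hFb, hs, hb⟩ := exists_linearIndepOn_extension hI (Finset.coe_subset.2 hF)
  have hB : ((Finset.univ.filter (fun i => i ∈ b) : Finset (Fin n)) : Set (Fin n)) = b := by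
    ext i
    simp
  have hsp : Spn k q h (Finset.univ.filter (fun i => i ∈ b)) = Spn k q h t := by
    unfold Spn
    rw [hB]
    exact le_antisymm (Submodule.span_mono (Set.image_mono hbt)) (Submodule.span_le.2 hs)
  refine ⟨Finset.univ.filter (fun i => i ∈ b), ?_, ?_, ?_, hsp⟩
  · rw [← Finset.coe_subset, hB]
    exact hFb
  · rw [← Finset.coe_subset, hB]
    exact hbt
  · rw [← hsp]
    unfold Spn
    have h1 : LinearIndependent k (fun i : (Finset.univ.filter (fun i => i ∈ b) : Finset (Fin n)) =>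
        q (h i)) := by
      have h2 : LinearIndepOn k (fun i => q (h i))
          ((Finset.univ.filter (fun i => i ∈ b) : Finset (Fin n)) : Set (Fin n)) := by
        rw [hB]
        exact hb
      exact h2
    have h3 := finrank_span_eq_card h1
    rw [Fintype.card_coe] at h3
    have h4 : Set.range (fun i : (Finset.univ.filter (fun i => i ∈ b) : Finset (Fin n)) => q (h i)) =
        (fun i => q (h i)) '' ((Finset.univ.filter (fun i => i ∈ b) : Finset (Fin n)) : Set (Fin n)) := by
      ext x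
      constructor
      · rintro ⟨i, rfl⟩
        exact ⟨i, Finset.mem_coe.2 i.2, rfl⟩
      · rintro ⟨i, hi, rfl⟩
        exact ⟨⟨i, Finset.mem_coe.1 hi⟩, rfl⟩
    rw [h4] at h3
    exact h3.symm

theorem la [FiniteDimensional k V] (hF : F ⊆ t)
    (hI : LinearIndepOn k (fun i => q (h i)) (F : Set (Fin n)))
    (hc : Module.finrank k (Spn k q h t) < t.card) :
    ∃ e ∈ t, e ∉ F ∧ Spn k q h (t.erase e) = Spn k q h t := by
  classical
  obtain ⟨B, hFB, hBt, hBc, hBs⟩ := exists_ext hF hI
  have hlt : B.card < t.card := by rw [hBc]; exact hc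
  obtain ⟨e, het, heB⟩ := Finset.exists_mem_notMem_of_card_lt_card hlt
  refine ⟨e, het, fun heF => heB (hFB heF), le_antisymm (Spn_mono (Finset.erase_subset _ _)) ?_⟩
  rw [← hBs]
  apply Spn_mono
  intro i hi
  rw [Finset.mem_erase]
  exact ⟨fun h' => heB (h' ▸ hi), hBt hi⟩

theorem Sp.exists_basis [FiniteDimensional k V] (hS : Sp k q h S) :
    ∃ M ⊆ S, M.card = Module.finrank k V ∧ Sp k q h M := by
  obtain ⟨B, -, hBS, hBc, hBs⟩ := exists_ext (k := k) (q := q) (h := h) (Finset.empty_subset S)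
    (by rw [Finset.coe_empty]; exact linearIndepOn_empty k _)
  unfold Sp at hS ⊢
  refine ⟨B, hBS, ?_, by rw [hBs, hS]⟩
  rw [hBc, hS, finrank_top]

end

end Sec

end RED
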