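import Pool.Agent.RED3.Sec0

/-!
# Commutation of the moves of two letters
-/

set_option autoImplicit false

namespace RED

namespace Sec

variable {k : Type*} {V X E : Type*} [Field k] [AddCommGroup V] [Module k V] {n : ℕ}
  {q : X → V} {p : E → Fin n → X} {T : Fin n → X → E → E}

theorem sq_all [FiniteDimensional k V] (hn : Module.finrank k V + 2 ≤ n) (hC : Cov k q p T)
    {e e' : Fin n} (hee : e ≠ e') {y z : X} {x : E}
    (h1 : Sp k q (p x) {e}ᶜ) (h2 : Sp k q (p x) {e'}ᶜ)
    (h3 : Sp k q (Function.update (p x) e y) {e'}ᶜ)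
    (h4 : Sp k q (Function.update (p x) e' z) {e}ᶜ) :
    T e' z (T e y x) = T e y (T e' z x) := by
  classical
  by_cases hSt : Sp k q (p x) {e, e'}ᶜ
  · exact hC.sq e e' y z x hee hSt
  obtain ⟨h, hh⟩ : ∃ h, h = p x := ⟨_, rfl⟩
  rw [← hh] at h1 h2 h3 h4 hSt
  obtain ⟨t, ht⟩ : ∃ t : Finset (Fin n), t = {e, e'}ᶜ := ⟨_, rfl⟩
  rw [← ht] at hSt
  have hte : e ∉ t := by rw [ht]; simp
  have hte' : e' ∉ t := by rw [ht]; simp
  have hce : ({e}ᶜ : Finset (Fin n)) = insert e' t := by
    ext i
    rw [ht]
    simp only [Finset.mem_compl, Finset.mem_singleton, Finset.mem_insert]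
    constructor
    · intro hi
      by_cases hi' : i = e'
      · exact Or.inl hi'
      · exact Or.inr (by rintro (h | h); exacts [hi h, hi' h])
    · rintro (rfl | hi)
      · exact fun hc => hee hc.symm
      · exact fun hc => hi (Or.inl hc)
  have hce' : ({e'}ᶜ : Finset (Fin n)) = insert e t := by
    ext i
    rw [ht]
    simp only [Finset.mem_compl, Finset.mem_singleton, Finset.mem_insert]
    constructor
    · intro hi
      by_cases hi' : i = e
      · exact Or.inl hi'
      · exact Or.inr (by rintro (h | h); exacts [hi' h, hi h])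
    · rintro (rfl | hi)
      · exact hee
      · exact fun hc => hi (Or.inr hc)
  obtain ⟨W, hW⟩ : ∃ W, W = Spn k q h t := ⟨_, rfl⟩
  have hWe' : q (h e') ∉ W := by rw [hW]; exact notMem_of (hce ▸ h1) hSt
  have hWe : q (h e) ∉ W := by rw [hW]; exact notMem_of (hce' ▸ h2) hSt
  have hWtop : W ⊔ Submodule.span k {q (h e)} = ⊤ := by
    have h5 : Spn k q h (insert e t) = ⊤ := hce' ▸ h2
    rw [Spn_insert] at h5
    rw [hW]; exact h5
  have hWy : q y ∉ W := by
    have h5 : Spn k q (Function.update h e y) t = W := by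
      rw [hW]
      exact Spn_congr fun i hi => Function.update_of_ne (ne_of_mem_of_not_mem hi hte) _ _
    have h6 : ¬ Sp k q (Function.update h e y) t := by
      intro h7
      apply hSt
      unfold Sp at h7 ⊢
      rw [← hW, ← h5, h7]
    have h8 := notMem_of (q := q) (h := Function.update h e y) (i := e) (t := t) (hce' ▸ h3) h6
    rw [Function.update_self, h5] at h8
    exact h8
  have hWz : q z ∉ W := by
    have h5 : Spn k q (Function.update h e' z) t = W := by
      rw [hW]
      exact Spn_congr fun i hi => Function.update_of_ne (ne_of_mem_of_not_mem hi hte') _ _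
    have h6 : ¬ Sp k q (Function.update h e' z) t := by
      intro h7
      apply hSt
      unfold Sp at h7 ⊢
      rw [← hW, ← h5, h7]
    have h8 := notMem_of (q := q) (h := Function.update h e' z) (i := e') (t := t) (hce ▸ h4) h6
    rw [Function.update_self, h5] at h8
    exact h8
  have htc : t.card = n - 2 := by
    rw [ht, Finset.card_compl, Fintype.card_fin, Finset.card_pair hee]
  have hfr : Module.finrank k (Spn k q h t) < t.card := by
    have := finrank_lt (k := k) (q := q) (h := h) hSt
    omega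
  obtain ⟨c, hct, -, hcW⟩ := la (k := k) (q := q) (h := h) (F := ∅) (t := t)
    (Finset.empty_subset t) (by rw [Finset.coe_empty]; exact linearIndepOn_empty _ _) hfr
  rw [← hW] at hcW
  have hcne : c ≠ e := fun hc => hte (hc ▸ hct)
  have hcne' : c ≠ e' := fun hc => hte' (hc ▸ hct)
  have key : ∀ (g : Fin n → X) (S : Finset (Fin n)) (i : Fin n), (∀ j ∈ t.erase c, g j = h j) →
      t.erase c ⊆ S → i ∈ S → q (g i) ∉ W → Sp k q g S := by
    intro g S i hg hS hi hq
    refine Sp_of hWtop ?_ hi hq
    rw [← hcW, ← Spn_congr hg]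
    exact Spn_mono hS
  have sub1 : t.erase c ⊆ {c}ᶜ := by
    intro i hi
    simpa using (Finset.mem_erase.1 hi).1
  have sube : t.erase c ⊆ {c, e}ᶜ := by
    intro i hi
    have h5 := Finset.mem_erase.1 hi
    have h6 : i ≠ e := fun hc => hte (hc ▸ h5.2)
    simp only [Finset.mem_compl, Finset.mem_insert, Finset.mem_singleton]
    rintro (h | h)
    exacts [h5.1 h, h6 h]
  have sube' : t.erase c ⊆ {c, e'}ᶜ := by
    intro i hi
    have h5 := Finset.mem_erase.1 hi
    have h6 : i ≠ e' := fun hc => hte' (hc ▸ h5.2)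
    simp only [Finset.mem_compl, Finset.mem_insert, Finset.mem_singleton]
    rintro (h | h)
    exacts [h5.1 h, h6 h]
  have sub2 : t.erase c ⊆ {e}ᶜ := fun i hi => by
    have h5 := Finset.mem_erase.1 hi
    have h6 : i ≠ e := fun hc => hte (hc ▸ h5.2)
    simpa using h6
  have sub2' : t.erase c ⊆ {e'}ᶜ := fun i hi => by
    have h5 := Finset.mem_erase.1 hi
    have h6 : i ≠ e' := fun hc => hte' (hc ▸ h5.2)
    simpa using h6
  -- the intermediate point
  have hSc : Sp k q (p x) {c}ᶜ := by
    rw [← hh]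
    exact key h _ e (fun _ _ => rfl) sub1 (by simpa using hcne.symm) hWe
  obtain ⟨x2, hx2⟩ : ∃ x2, x2 = T c (h e) x := ⟨_, rfl⟩
  have hp2 : p x2 = Function.update h c (h e) := by rw [hx2, hC.pT c (h e) x hSc, hh]
  have hxx : T c (h c) x2 = x := by
    rw [hx2, hC.tri c (h e) (h c) x hSc, hh]
    exact hC.self c x hSc
  have hg2 : ∀ j ∈ t.erase c, p x2 j = h j := by
    intro j hj
    rw [hp2]
    exact Function.update_of_ne (Finset.mem_erase.1 hj).1 _ _
  have v2c : p x2 c = h e := by rw [hp2, Function.update_self]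
  have v2e : p x2 e = h e := by rw [hp2, Function.update_of_ne hcne.symm]
  have v2e' : p x2 e' = h e' := by rw [hp2, Function.update_of_ne hcne'.symm]
  have hA : T e' z (T e y x2) = T e y (T e' z x2) := by
    refine hC.sq e e' y z x2 hee ?_
    rw [← ht]
    exact key _ _ c hg2 (Finset.erase_subset _ _) hct (by rw [v2c]; exact hWe)
  have hCe : T e y (T c (h c) x2) = T c (h c) (T e y x2) :=
    hC.sq c e (h c) y x2 hcne (key _ _ e' hg2 sube
      (by simp [hcne'.symm, hee.symm]) (by rw [v2e']; exact hWe'))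
  have hCe' : T e' z (T c (h c) x2) = T c (h c) (T e' z x2) :=
    hC.sq c e' (h c) z x2 hcne' (key _ _ e hg2 sube'
      (by simp [hcne.symm, hee]) (by rw [v2e]; exact hWe))
  have hpe : p (T e y x2) = Function.update (p x2) e y :=
    hC.pT e y x2 (key _ _ e' hg2 sub2 (by simpa using hee.symm) (by rw [v2e']; exact hWe'))
  have hpe' : p (T e' z x2) = Function.update (p x2) e' z :=
    hC.pT e' z x2 (key _ _ e hg2 sub2' (by simpa using hee) (by rw [v2e]; exact hWe))
  have hge : ∀ j ∈ t.erase c, p (T e y x2) j = h j := by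
    intro j hj
    rw [hpe, Function.update_of_ne (ne_of_mem_of_not_mem (Finset.mem_erase.1 hj).2 hte)]
    exact hg2 j hj
  have hge' : ∀ j ∈ t.erase c, p (T e' z x2) j = h j := by
    intro j hj
    rw [hpe', Function.update_of_ne (ne_of_mem_of_not_mem (Finset.mem_erase.1 hj).2 hte')]
    exact hg2 j hj
  have hD : T e' z (T c (h c) (T e y x2)) = T c (h c) (T e' z (T e y x2)) :=
    hC.sq c e' (h c) z (T e y x2) hcne' (key _ _ e hge sube'
      (by simp [hcne.symm, hee]) (by rw [hpe, Function.update_self]; exact hWy))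
  have hF : T e y (T c (h c) (T e' z x2)) = T c (h c) (T e y (T e' z x2)) :=
    hC.sq c e (h c) y (T e' z x2) hcne (key _ _ e' hge' sube
      (by simp [hcne'.symm, hee.symm]) (by rw [hpe', Function.update_self]; exact hWz))
  calc T e' z (T e y x) = T e' z (T e y (T c (h c) x2)) := by rw [hxx]
    _ = T c (h c) (T e' z (T e y x2)) := by rw [hCe, hD]
    _ = T c (h c) (T e y (T e' z x2)) := by rw [hA]
    _ = T e y (T e' z (T c (h c) x2)) := by rw [hCe', hF]
    _ = T e y (T e' z x) := by rw [hxx]

end Sec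

end RED
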