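import Pool.Agent.RED3.Sec0

/-!
# Sections: the letters of `F` span
-/

set_option autoImplicit false

namespace RED

namespace Sec

variable {k : Type*} {V X E : Type*} [Field k] [AddCommGroup V] [Module k V] {n : ℕ}
  {q : X → V} {p : E → Fin n → X} {T : Fin n → X → E → E}

namespace Base

/-- the letters of the list are changed, one after the other -/
def fold (T : Fin n → X → E → E) (h : Fin n → X) : List (Fin n) → E → E
  | [], x => x
  | a :: l, x => T a (h a) (fold T h l x)

theorem sp_good {F : Finset (Fin n)} {x0 x : E} (hF : Sp k q (p x0) F)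
    (hx : ∀ i ∈ F, p x i = p x0 i) {S : Finset (Fin n)} (hS : F ⊆ S) : Sp k q (p x) S :=
  (hF.congr fun i hi => (hx i hi).symm).mono hS

theorem sub_one {F : Finset (Fin n)} {e : Fin n} (he : e ∉ F) : F ⊆ {e}ᶜ := by
  intro i hi
  simp only [Finset.mem_compl, Finset.mem_singleton]
  rintro rfl
  exact he hi

theorem sub_two {F : Finset (Fin n)} {e e' : Fin n} (he : e ∉ F) (he' : e' ∉ F) :
    F ⊆ {e, e'}ᶜ := by
  intro i hi
  simp only [Finset.mem_compl, Finset.mem_insert, Finset.mem_singleton, not_or]
  exact ⟨fun h => he (h ▸ hi), fun h => he' (h ▸ hi)⟩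

theorem p_fold (hC : Cov k q p T) {F : Finset (Fin n)} {x0 : E} (hF : Sp k q (p x0) F)
    (h : Fin n → X) (x : E) (hx : ∀ i ∈ F, p x i = p x0 i) :
    ∀ l : List (Fin n), (∀ a ∈ l, a ∉ F) →
      (∀ i ∈ F, p (fold T h l x) i = p x0 i) ∧
      ∀ i, p (fold T h l x) i = if i ∈ l then h i else p x i := by
  intro l
  induction l with
  | nil => exact fun _ => ⟨hx, fun i => by simp [fold]⟩
  | cons a l ih =>
    intro hl
    have haF : a ∉ F := hl a (List.mem_cons_self ..)
    obtain ⟨h1, h2⟩ := ih fun b hb => hl b (List.mem_cons_of_mem _ hb)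
    have h3 : p (fold T h (a :: l) x) = Function.update (p (fold T h l x)) a (h a) :=
      hC.pT a (h a) _ (sp_good hF h1 (sub_one haF))
    constructor
    · intro i hi
      have hia : i ≠ a := by
        rintro rfl
        exact haF hi
      rw [h3, Function.update_of_ne hia, h1 i hi]
    · intro i
      rw [h3]
      by_cases hia : i = a
      · subst hia
        simp
      · rw [Function.update_of_ne hia, h2 i]
        simp [hia]

theorem fold_congr (T : Fin n → X → E → E) (h h' : Fin n → X) (x : E) :
    ∀ l : List (Fin n), (∀ a ∈ l, h a = h' a) → fold T h l x = fold T h' l x := by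
  intro l
  induction l with
  | nil => exact fun _ => rfl
  | cons a l ih =>
    intro hl
    rw [fold, fold, hl a (List.mem_cons_self ..), ih fun b hb => hl b (List.mem_cons_of_mem _ hb)]

theorem fold_edge (hC : Cov k q p T) {F : Finset (Fin n)} {x0 : E} (hF : Sp k q (p x0) F)
    (h : Fin n → X) (x : E) (hx : ∀ i ∈ F, p x i = p x0 i) {e : Fin n} (he : e ∉ F) (y : X) :
    ∀ l : List (Fin n), l.Nodup → (∀ a ∈ l, a ∉ F) → e ∈ l →
      fold T (Function.update h e y) l x = T e y (fold T h l x) := by
  intro l
  induction l with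
  | nil => intro _ _ hel; simp at hel
  | cons a l ih =>
    intro hnd hl hel
    obtain ⟨hal, hnd'⟩ := List.nodup_cons.mp hnd
    have haF : a ∉ F := hl a (List.mem_cons_self ..)
    have hl' : ∀ b ∈ l, b ∉ F := fun b hb => hl b (List.mem_cons_of_mem _ hb)
    obtain ⟨h1, -⟩ := p_fold hC hF h x hx l hl'
    by_cases hea : e = a
    · subst hea
      rw [fold, fold, Function.update_self,
        fold_congr T (Function.update h e y) h x l fun b hb =>
          Function.update_of_ne (by rintro rfl; exact hal hb) _ _,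
        hC.tri e (h e) y _ (sp_good hF h1 (sub_one haF))]
    · have hel' : e ∈ l := by
        rcases List.mem_cons.mp hel with hh | hh
        · exact absurd hh hea
        · exact hh
      rw [fold, fold, Function.update_of_ne (fun hh => hea hh.symm), ih hnd' hl' hel']
      exact hC.sq e a y (h a) _ hea (sp_good hF h1 (sub_two he haF))

theorem fold_self (hC : Cov k q p T) {F : Finset (Fin n)} {x0 : E} (hF : Sp k q (p x0) F) :
    ∀ l : List (Fin n), (∀ a ∈ l, a ∉ F) → fold T (p x0) l x0 = x0 := by
  intro l
  induction l with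
  | nil => exact fun _ => rfl
  | cons a l ih =>
    intro hl
    rw [fold, ih fun b hb => hl b (List.mem_cons_of_mem _ hb)]
    exact hC.self a x0 (sp_good hF (fun _ _ => rfl) (sub_one (hl a (List.mem_cons_self ..))))

end Base

theorem sec_base (hC : Cov k q p T) {F : Finset (Fin n)} {x0 : E} (hF : Sp k q (p x0) F) :
    HasSec k q p T F x0 := by
  have hL : ∀ a, a ∈ (Fᶜ).toList ↔ a ∉ F := fun a => by
    rw [Finset.mem_toList, Finset.mem_compl]
  refine ⟨fun h => Base.fold T h (Fᶜ).toList x0, ?_, ?_, ?_⟩
  · exact Base.fold_self hC hF _ fun a ha => (hL a).1 ha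
  · intro h hh _
    funext i
    rw [(Base.p_fold hC hF h x0 (fun _ _ => rfl) _ fun a ha => (hL a).1 ha).2 i]
    by_cases hi : i ∈ F
    · rw [if_neg (fun hc => (hL i).1 hc hi), hh i hi]
    · rw [if_pos ((hL i).2 hi)]
  · intro h e y _ he _
    exact Base.fold_edge hC hF h x0 (fun _ _ => rfl) he y _ (Finset.nodup_toList _)
      (fun a ha => (hL a).1 ha) ((hL e).2 he)

end Sec

end RED
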