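import Pool.Agent.RED3.Sec1

/-!
# The tuples for which the letter `o` is needed
-/

set_option autoImplicit false

namespace RED

namespace Sec

variable {k : Type*} {V X E : Type*} [Field k] [AddCommGroup V] [Module k V] {n : ℕ}
  {q : X → V} {p : E → Fin n → X} {T : Fin n → X → E → E}

/-- facts about a tuple for which `o` is needed -/
private theorem sec4_top {h : Fin n → X} {o : Fin n} (hu : Sp k q h Finset.univ)
    (ho : ¬ Sp k q h {o}ᶜ) :
    Spn k q h {o}ᶜ ⊔ Submodule.span k {q (h o)} = ⊤ ∧ q (h o) ∉ Spn k q h {o}ᶜ := by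
  classical
  have h1 : insert o ({o}ᶜ : Finset (Fin n)) = Finset.univ := by
    ext i
    simp only [Finset.mem_insert, Finset.mem_compl, Finset.mem_singleton, Finset.mem_univ,
      iff_true]
    exact em _
  constructor
  · rw [← Spn_insert, h1]
    exact hu
  · exact notMem_of (by rw [h1]; exact hu) ho

private theorem sec4_li {F : Finset (Fin n)} {h h' : Fin n → X}
    (hI : LinearIndepOn k (fun i => q (h' i)) (F : Set (Fin n)))
    (hh : ∀ i ∈ F, h i = h' i) : LinearIndepOn k (fun i => q (h i)) (F : Set (Fin n)) := by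
  refine hI.congr ?_
  intro i hi
  simp only
  rw [hh i (Finset.mem_coe.1 hi)]

/-- a letter outside of `F` and `o` which is not needed -/
theorem exists_a [FiniteDimensional k V] (hn : Module.finrank k V + 2 ≤ n)
    {F : Finset (Fin n)} {x0 : E} {o : Fin n} (hoF : o ∉ F)
    (hI : LinearIndepOn k (fun i => q (p x0 i)) (F : Set (Fin n)))
    {h : Fin n → X} (hh : ∀ i ∈ F, h i = p x0 i) (hu : Sp k q h Finset.univ)
    (ho : ¬ Sp k q h {o}ᶜ) : ∃ a, a ∉ F ∧ a ≠ o ∧ Sp k q h {a}ᶜ := by
  classical
  obtain ⟨hU, hoU⟩ := sec4_top hu ho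
  have hFt : F ⊆ ({o}ᶜ : Finset (Fin n)) := by
    intro i hi
    rw [Finset.mem_compl, Finset.mem_singleton]
    rintro rfl
    exact hoF hi
  have hlt := finrank_lt ho
  have hcard : ({o}ᶜ : Finset (Fin n)).card = n - 1 := by
    rw [Finset.card_compl, Fintype.card_fin, Finset.card_singleton]
  obtain ⟨a, hat, haF, has⟩ := la hFt (sec4_li hI hh) (by rw [hcard]; omega)
  rw [Finset.mem_compl, Finset.mem_singleton] at hat
  refine ⟨a, haF, hat, Sp_of (i := o) hU ?_ ?_ hoU⟩
  · rw [← has]
    apply Spn_mono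
    intro i hi
    rw [Finset.mem_compl, Finset.mem_singleton]
    exact (Finset.mem_erase.1 hi).1
  · rw [Finset.mem_compl, Finset.mem_singleton]
    exact fun hc => hat hc.symm

private theorem sec4_codim {W U : Submodule k V} {v : V} (h1 : W ≤ U)
    (h2 : W ⊔ Submodule.span k {v} = ⊤) (hv : v ∉ U) : W = U := by
  refine le_antisymm h1 ?_
  intro u hu
  have h3 : u ∈ W ⊔ Submodule.span k {v} := by rw [h2]; exact Submodule.mem_top
  obtain ⟨w, hw, z, hz, hwz⟩ := Submodule.mem_sup.1 h3
  obtain ⟨c, rfl⟩ := Submodule.mem_span_singleton.1 hz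
  by_cases hc : c = 0
  · rw [hc, zero_smul, add_zero] at hwz
    exact hwz ▸ hw
  · exfalso
    apply hv
    have h4 : c • v ∈ U := by
      have h5 : c • v = u - w := by rw [← hwz, add_sub_cancel_left]
      rw [h5]
      exact Submodule.sub_mem _ hu (h1 hw)
    have h6 := Submodule.smul_mem U c⁻¹ h4
    rwa [smul_smul, inv_mul_cancel₀ hc, one_smul] at h6

/-- the letter `a` with `{a}ᶜ` spanning -/
private theorem sec4_eq {h : Fin n → X} {o a : Fin n} (hao : a ≠ o)
    (hoU : q (h o) ∉ Spn k q h {o}ᶜ) (ha : Sp k q h {a}ᶜ) :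
    Spn k q h {o, a}ᶜ = Spn k q h {o}ᶜ := by
  classical
  refine sec4_codim (v := q (h o)) ?_ ?_ hoU
  · apply Spn_mono
    intro i hi
    simp only [Finset.mem_compl, Finset.mem_insert, Finset.mem_singleton, not_or] at hi ⊢
    exact hi.1
  · rw [← Spn_insert]
    have h1 : insert o ({o, a}ᶜ : Finset (Fin n)) = {a}ᶜ := by
      ext i
      simp only [Finset.mem_compl, Finset.mem_insert, Finset.mem_singleton, not_or]
      constructor
      · rintro (rfl | hi)
        · exact fun hc => hao hc.symm
        · exact hi.2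
      · intro hi
        by_cases hio : i = o
        · exact Or.inl hio
        · exact Or.inr ⟨hio, hi⟩
    rw [h1]
    exact ha

/-- the first case -/
private theorem sec4_case (hC : Cov k q p T)
    {F : Finset (Fin n)} {x0 : E} {o : Fin n} {sr : (Fin n → X) → E}
    (hs : RSec k q p T F x0 o sr)
    {h : Fin n → X} (hh : ∀ i ∈ F, h i = p x0 i)
    (hU : Spn k q h {o}ᶜ ⊔ Submodule.span k {q (h o)} = ⊤) (hoU : q (h o) ∉ Spn k q h {o}ᶜ)
    {a a' : Fin n} (haF : a ∉ F) (hao : a ≠ o) (haF' : a' ∉ F) (hao' : a' ≠ o) (haa : a ≠ a')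
    (hS : Spn k q h {o, a, a'}ᶜ = Spn k q h {o}ᶜ) :
    T a (h a) (sr (Function.update h a (h o))) =
      T a' (h a') (sr (Function.update h a' (h o))) := by
  classical
  -- every tuple which agrees with `h` off `a`, `a'` and contains the value `h o` outside
  have key : ∀ (g : Fin n → X) (S : Finset (Fin n)) (i : Fin n),
      (∀ j, j ≠ a → j ≠ a' → g j = h j) → ({o, a, a'}ᶜ : Finset (Fin n)) ⊆ S → i ∈ S →
      g i = h o → Sp k q g S := by
    intro g S i hg hSS hi hgi
    refine Sp_of (i := i) hU ?_ hi (by rw [hgi]; exact hoU)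
    rw [← hS]
    refine le_trans ?_ (Spn_mono hSS)
    rw [Spn_congr (h := h) (h' := g)]
    intro j hj
    simp only [Finset.mem_compl, Finset.mem_insert, Finset.mem_singleton, not_or] at hj
    exact (hg j hj.2.1 hj.2.2).symm
  obtain ⟨h2, hh2⟩ : ∃ h2, h2 = Function.update (Function.update h a (h o)) a' (h o) := ⟨_, rfl⟩
  have v1 : h2 a = h o := by
    rw [hh2, Function.update_of_ne haa, Function.update_self]
  have v2 : h2 a' = h o := by
    rw [hh2, Function.update_self]
  have v3 : ∀ j, j ≠ a → j ≠ a' → h2 j = h j := by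
    intro j hj hj'
    rw [hh2, Function.update_of_ne hj', Function.update_of_ne hj]
  have v4 : ∀ i ∈ F, h2 i = p x0 i := by
    intro i hi
    rw [v3 i (fun hc => haF (hc ▸ hi)) (fun hc => haF' (hc ▸ hi))]
    exact hh i hi
  have u1 : Function.update h2 a' (h a') = Function.update h a (h o) := by
    funext j
    by_cases hj' : j = a'
    · subst hj'
      rw [Function.update_self, Function.update_of_ne (fun hc => haa hc.symm)]
    · rw [Function.update_of_ne hj', hh2, Function.update_of_ne hj']
  have u2 : Function.update h2 a (h a) = Function.update h a' (h o) := by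
    funext j
    by_cases hj : j = a
    · subst hj
      rw [Function.update_self, Function.update_of_ne haa]
    · rw [Function.update_of_ne hj, hh2]
      by_cases hj' : j = a'
      · subst hj'
        rw [Function.update_self, Function.update_self]
      · rw [Function.update_of_ne hj', Function.update_of_ne hj, Function.update_of_ne hj']
  have s1 : Sp k q h2 {o}ᶜ := by
    refine key h2 _ a v3 ?_ ?_ v1
    · intro i hi
      simp only [Finset.mem_compl, Finset.mem_insert, Finset.mem_singleton, not_or] at hi ⊢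
      exact hi.1
    · simpa only [Finset.mem_compl, Finset.mem_singleton] using hao
  have s2 : Sp k q h2 {a'}ᶜ := by
    refine key h2 _ a v3 ?_ ?_ v1
    · intro i hi
      simp only [Finset.mem_compl, Finset.mem_insert, Finset.mem_singleton, not_or] at hi ⊢
      exact hi.2.2
    · simpa only [Finset.mem_compl, Finset.mem_singleton] using haa
  have s3 : Sp k q h2 {a}ᶜ := by
    refine key h2 _ a' v3 ?_ ?_ v2
    · intro i hi
      simp only [Finset.mem_compl, Finset.mem_insert, Finset.mem_singleton, not_or] at hi ⊢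
      exact hi.2.1
    · simpa only [Finset.mem_compl, Finset.mem_singleton] using (fun hc => haa hc.symm)
  have s4 : Sp k q (Function.update h2 a' (h a')) {o}ᶜ := by
    rw [u1]
    refine key _ _ a ?_ ?_ ?_ (Function.update_self _ _ _)
    · intro j hj _
      rw [Function.update_of_ne hj]
    · intro i hi
      simp only [Finset.mem_compl, Finset.mem_insert, Finset.mem_singleton, not_or] at hi ⊢
      exact hi.1
    · simpa only [Finset.mem_compl, Finset.mem_singleton] using hao
  have s5 : Sp k q (Function.update h2 a (h a)) {o}ᶜ := by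
    rw [u2]
    refine key _ _ a' ?_ ?_ ?_ (Function.update_self _ _ _)
    · intro j _ hj
      rw [Function.update_of_ne hj]
    · intro i hi
      simp only [Finset.mem_compl, Finset.mem_insert, Finset.mem_singleton, not_or] at hi ⊢
      exact hi.1
    · simpa only [Finset.mem_compl, Finset.mem_singleton] using hao'
  have s6 : Sp k q h2 {a, a'}ᶜ := by
    refine key h2 _ o v3 ?_ ?_ (v3 o hao.symm hao'.symm)
    · intro i hi
      simp only [Finset.mem_compl, Finset.mem_insert, Finset.mem_singleton, not_or] at hi ⊢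
      exact hi.2
    · simp only [Finset.mem_compl, Finset.mem_insert, Finset.mem_singleton, not_or]
      exact ⟨hao.symm, hao'.symm⟩
  have r1 := hs.P2 h2 a' (h a') v4 haF' hao' s1 s2 s4
  have r2 := hs.P2 h2 a (h a) v4 haF hao s1 s3 s5
  rw [u1] at r1
  rw [u2] at r2
  have hp := hs.P1 h2 v4 s1
  rw [r1, r2]
  exact (hC.sq a a' (h a) (h a') (sr h2) haa (by rw [hp]; exact s6)).symm

/-- independence of the letter -/
theorem indep_a [FiniteDimensional k V] (hn : Module.finrank k V + 2 ≤ n) (hC : Cov k q p T)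
    {F : Finset (Fin n)} {x0 : E} {o : Fin n} {sr : (Fin n → X) → E}
    (hs : RSec k q p T F x0 o sr)
    (hI : LinearIndepOn k (fun i => q (p x0 i)) (F : Set (Fin n)))
    {h : Fin n → X} (hh : ∀ i ∈ F, h i = p x0 i) (ho : ¬ Sp k q h {o}ᶜ)
    {a a' : Fin n} (haF : a ∉ F) (hao : a ≠ o) (ha : Sp k q h {a}ᶜ)
    (haF' : a' ∉ F) (hao' : a' ≠ o) (ha' : Sp k q h {a'}ᶜ) :
    T a (h a) (sr (Function.update h a (h o))) =
      T a' (h a') (sr (Function.update h a' (h o))) := by
  classical
  by_cases haa : a = a'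
  · rw [haa]
  have hu : Sp k q h Finset.univ := ha.mono (Finset.subset_univ _)
  obtain ⟨hU, hoU⟩ := sec4_top hu ho
  by_cases hS : Spn k q h {o, a, a'}ᶜ = Spn k q h {o}ᶜ
  · exact sec4_case hC hs hh hU hoU haF hao haF' hao' haa hS
  have ea := sec4_eq hao hoU ha
  have ea' := sec4_eq hao' hoU ha'
  obtain ⟨t, ht⟩ : ∃ t : Finset (Fin n), t = {o, a, a'}ᶜ := ⟨_, rfl⟩
  have mt : ∀ i, i ∈ t ↔ i ≠ o ∧ i ≠ a ∧ i ≠ a' := by
    intro i
    rw [ht]
    simp only [Finset.mem_compl, Finset.mem_insert, Finset.mem_singleton, not_or]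
  have hle : Spn k q h t ≤ Spn k q h {o}ᶜ := by
    apply Spn_mono
    intro i hi
    simp only [Finset.mem_compl, Finset.mem_singleton]
    exact ((mt i).1 hi).1
  have hlt : Spn k q h t < Spn k q h {o}ᶜ := lt_of_le_of_ne hle (by rw [ht]; exact hS)
  have f1 := Submodule.finrank_lt_finrank_of_lt hlt
  have f2 := finrank_lt ho
  have hcard : n ≤ t.card + 3 := by
    have h1 : (({o, a, a'} : Finset (Fin n))).card ≤ 3 := Finset.card_le_three
    have h2 := Finset.card_compl ({o, a, a'} : Finset (Fin n))
    rw [Fintype.card_fin] at h2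
    rw [ht, h2]
    omega
  have hFt : F ⊆ t := by
    intro i hi
    rw [mt]
    exact ⟨fun hc => hs.oF (hc ▸ hi), fun hc => haF (hc ▸ hi), fun hc => haF' (hc ▸ hi)⟩
  obtain ⟨c, hct, hcF, hcs⟩ := la hFt (sec4_li hI hh) (by omega)
  obtain ⟨hco, hca, hca'⟩ := (mt c).1 hct
  have g1 : Spn k q h {o, a, c}ᶜ = Spn k q h {o}ᶜ := by
    have i1 : ({o, a, c}ᶜ : Finset (Fin n)) = insert a' (t.erase c) := by
      ext i
      rw [Finset.mem_insert, Finset.mem_erase, mt]
      simp only [Finset.mem_compl, Finset.mem_insert, Finset.mem_singleton, not_or]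
      constructor
      · rintro ⟨h1, h2, h3⟩
        by_cases hi : i = a'
        · exact Or.inl hi
        · exact Or.inr ⟨h3, h1, h2, hi⟩
      · rintro (rfl | ⟨h1, h2, h3, _⟩)
        · exact ⟨hao', fun hc => haa hc.symm, fun hc => hca' hc.symm⟩
        · exact ⟨h2, h3, h1⟩
    have i2 : insert a' t = ({o, a}ᶜ : Finset (Fin n)) := by
      ext i
      rw [Finset.mem_insert, mt]
      simp only [Finset.mem_compl, Finset.mem_insert, Finset.mem_singleton, not_or]
      constructor
      · rintro (rfl | ⟨h1, h2, _⟩)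
        · exact ⟨hao', fun hc => haa hc.symm⟩
        · exact ⟨h1, h2⟩
      · rintro ⟨h1, h2⟩
        by_cases hi : i = a'
        · exact Or.inl hi
        · exact Or.inr ⟨h1, h2, hi⟩
    rw [i1, Spn_insert, hcs, ← Spn_insert, i2, ea]
  have g2 : Spn k q h {o, a', c}ᶜ = Spn k q h {o}ᶜ := by
    have i1 : ({o, a', c}ᶜ : Finset (Fin n)) = insert a (t.erase c) := by
      ext i
      rw [Finset.mem_insert, Finset.mem_erase, mt]
      simp only [Finset.mem_compl, Finset.mem_insert, Finset.mem_singleton, not_or]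
      constructor
      · rintro ⟨h1, h2, h3⟩
        by_cases hi : i = a
        · exact Or.inl hi
        · exact Or.inr ⟨h3, h1, hi, h2⟩
      · rintro (rfl | ⟨h1, h2, _, h3⟩)
        · exact ⟨hao, haa, fun hc => hca hc.symm⟩
        · exact ⟨h2, h3, h1⟩
    have i2 : insert a t = ({o, a'}ᶜ : Finset (Fin n)) := by
      ext i
      rw [Finset.mem_insert, mt]
      simp only [Finset.mem_compl, Finset.mem_insert, Finset.mem_singleton, not_or]
      constructor
      · rintro (rfl | ⟨h1, _, h2⟩)
        · exact ⟨hao, haa⟩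
        · exact ⟨h1, h2⟩
      · rintro ⟨h1, h2⟩
        by_cases hi : i = a
        · exact Or.inl hi
        · exact Or.inr ⟨h1, hi, h2⟩
    rw [i1, Spn_insert, hcs, ← Spn_insert, i2, ea']
  exact (sec4_case hC hs hh hU hoU haF hao hcF hco (fun hc => hca hc.symm) g1).trans
    (sec4_case hC hs hh hU hoU haF' hao' hcF hco (fun hc => hca' hc.symm) g2).symm

end Sec

end RED
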